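import Pool.Agent.Lib.MP_4d37d6_al.Rels

/-!
The action of the generators on the span of the normal form words.
-/

set_option autoImplicit false

namespace Pool.Agent.Lib.MP_4d37d6_al

open Function

variable {K Γ : Type} {n : ℕ}

namespace Setup

variable [DecidableEq K] (S : Setup K Γ n) (ι : Cfg K Γ)

/-- the leading coefficient of the `N`-th simplicity relation -/
def kk (N : ℕ) : ℕ := if S.ch ∣ (S.data N).2.1 then 1 else (S.data N).2.1

open Classical in
/-- the other terms of the `N`-th simplicity relation -/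
noncomputable def os (N : ℕ) : List (Bool × Word K Γ n) :=
  (S.data N).2.2.filter fun p => decide (S.NF ι p.2 ∧ p.2 ≠ S.ell N ∧ S.wt p.2 ≤ S.wt (S.ell N))

theorem mem_os {N : ℕ} {p : Bool × Word K Γ n} (h : p ∈ S.os ι N) :
    S.NF ι p.2 ∧ p.2 ≠ S.ell N ∧ S.wt p.2 ≤ S.wt (S.ell N) := by
  simpa using (List.mem_filter.1 h).2

end Setup

structure Model (K Γ : Type) (n : ℕ) (F A : Type*) [DecidableEq K] [Field F] [Ring A]
    [Algebra F A] extends Setup K Γ n where
  ι : Cfg K Γ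
  bwd_ι : ∀ c, toSetup.bwd (cat ι c) = none
  a : Fin n → A
  bs : Module.Basis B F A
  bs_eq : ∀ b, bs b = ev a b.1
  ch_eq : ch = ringChar F

namespace Model

variable {F A : Type*} [DecidableEq K] [Field F] [Ring A] [Algebra F A] (P : Model K Γ n F A)

abbrev nf (ω : Word K Γ n) : Prop := P.NF P.ι ω

abbrev V : Type _ := {ω : Word K Γ n // P.nf ω} →₀ F

open Classical in
noncomputable def sg (ω : Word K Γ n) : P.V := if h : P.nf ω then Finsupp.single ⟨ω, h⟩ 1 else 0

theorem sg_of_nf {ω : Word K Γ n} (h : P.nf ω) : P.sg ω = Finsupp.single ⟨ω, h⟩ 1 := dif_pos h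

noncomputable def ext {W : Type*} [AddCommGroup W] [Module F W] (f : Word K Γ n → W) :
    P.V →ₗ[F] W :=
  Finsupp.linearCombination F fun ω : {ω : Word K Γ n // P.nf ω} => f ω.1

theorem ext_sg {W : Type*} [AddCommGroup W] [Module F W] (f : Word K Γ n → W) {ω : Word K Γ n}
    (h : P.nf ω) : P.ext f (P.sg ω) = f ω := by
  simp [ext, P.sg_of_nf h]

theorem hom_ext {W : Type*} [AddCommGroup W] [Module F W] {φ ψ : P.V →ₗ[F] W}
    (h : ∀ ω, P.nf ω → φ (P.sg ω) = ψ (P.sg ω)) : φ = ψ := by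
  refine Finsupp.lhom_ext' fun ω => LinearMap.ext_ring ?_
  simpa [P.sg_of_nf ω.2] using h ω.1 ω.2

noncomputable def Fil (j : ℕ) : Submodule F P.V :=
  Submodule.span F {v | ∃ ω, P.nf ω ∧ P.wt ω ≤ j ∧ v = P.sg ω}

theorem sg_mem_Fil {ω : Word K Γ n} {j : ℕ} (h : P.wt ω ≤ j) : P.sg ω ∈ P.Fil j := by
  by_cases hω : P.nf ω
  · exact Submodule.subset_span ⟨ω, hω, h, rfl⟩
  · rw [sg, dif_neg hω]; exact Submodule.zero_mem _

theorem Fil_mono {i j : ℕ} (h : i ≤ j) : P.Fil i ≤ P.Fil j :=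
  Submodule.span_mono fun _ ⟨ω, h1, h2, h3⟩ => ⟨ω, h1, h2.trans h, h3⟩

theorem map_mem_of_Fil {W : Type*} [AddCommGroup W] [Module F W] {φ : P.V →ₗ[F] W}
    {U : Submodule F W} {j : ℕ} (h : ∀ ω, P.nf ω → P.wt ω ≤ j → φ (P.sg ω) ∈ U) {v : P.V}
    (hv : v ∈ P.Fil j) : φ v ∈ U := by
  have : P.Fil j ≤ U.comap φ := Submodule.span_le.2 (by
    rintro _ ⟨ω, h1, h2, rfl⟩
    exact h ω h1 h2)
  exact this hv

theorem eq_of_Fil {W : Type*} [AddCommGroup W] [Module F W] {φ ψ : P.V →ₗ[F] W}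
    {j : ℕ} (h : ∀ ω, P.nf ω → P.wt ω ≤ j → φ (P.sg ω) = ψ (P.sg ω)) {v : P.V}
    (hv : v ∈ P.Fil j) : φ v = ψ v :=
  LinearMap.eqOn_span (by
    rintro _ ⟨ω, h1, h2, rfl⟩
    exact h ω h1 h2) hv

/-- the copy of `A` attached to a configuration and a tail -/
noncomputable def jA (c : Cfg K Γ) (tl : Tail K Γ n) : A →ₗ[F] P.V :=
  P.bs.constr F fun b => P.sg ((c, b.1), tl)

theorem jA_ev (c : Cfg K Γ) (tl : Tail K Γ n) {b : List (Fin n)} (hb : b ∈ P.B) :
    P.jA c tl (ev P.a b) = P.sg ((c, b), tl) := by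
  rw [← P.bs_eq ⟨b, hb⟩, jA, Module.Basis.constr_basis]

theorem jA_mem (c : Cfg K Γ) (tl : Tail K Γ n) (α : A) :
    P.jA c tl α ∈ P.Fil (P.wtC c + P.wtT tl) := by
  have : ⊤ ≤ (P.Fil (P.wtC c + P.wtT tl)).comap (P.jA c tl) := by
    rw [← P.bs.span_eq, Submodule.span_le]
    rintro _ ⟨b, rfl⟩
    rw [SetLike.mem_coe, Submodule.mem_comap, jA, Module.Basis.constr_basis]
    exact P.sg_mem_Fil le_rfl
  exact this Submodule.mem_top

/-- the terms of the `N`-th simplicity relation other than the leading one -/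
noncomputable def others (N : ℕ) (ω : Word K Γ n) : P.V :=
  ((P.os P.ι N).map fun p =>
    bif p.1 then - P.sg (consX X.x (P.red N p.2 ω)) else P.sg (consX X.x (P.red N p.2 ω))).sum

open Classical in
noncomputable def actX (ω : Word K Γ n) : P.V :=
  if h : P.IsRed ω then
    ((P.kk h.choose : F)⁻¹) • (P.sg h.choose_spec.choose - P.others h.choose h.choose_spec.choose)
  else P.sg (consX X.x ω)

theorem actX_red {N : ℕ} (hN : P.wt (P.ell N) < N) (ω : Word K Γ n) :
    P.actX (P.red N (P.ell N) ω) = ((P.kk N : F)⁻¹) • (P.sg ω - P.others N ω) := by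
  have h : P.IsRed (P.red N (P.ell N) ω) := ⟨N, ω, hN, rfl⟩
  have h1 := h.choose_spec.choose_spec.2
  have h2 : h.choose = N := (Setup.red_index h1).symm
  have h3 : h.choose_spec.choose = ω := by
    generalize h.choose_spec.choose = ω' at h1
    rw [h2] at h1
    exact (Setup.red_inj hN hN h1).2.symm
  rw [actX, dif_pos h, h3, h2]

theorem actX_of_not {ω : Word K Γ n} (h : ¬ P.IsRed ω) : P.actX ω = P.sg (consX X.x ω) :=
  dif_neg h

noncomputable def act3 (ω : Word K Γ n) : P.V :=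
  if ω.1.2 = [] ∧ ω.2.head?.map Prod.fst = some X.w then
    P.sg ((ω.2.headD (X.w, one)).2, ω.2.tail)
  else P.sg (consX X.e3 ((nil, ω.1.2), ω.2))

open Classical in
noncomputable def act1aux (G : Module.End F P.V) (c : Cfg K Γ) (b : List (Fin n))
    (tl : Tail K Γ n) : List Γ → P.V
  | [] => P.sg (consX X.e1 ((update c P.kIn [], b), tl))
  | γ :: l => if γ = P.bot then 0 else
      if γ = P.inl 2 then act1aux G c b tl l + G (P.sg ((update c P.kIn l, b), tl))
      else act1aux G c b tl l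

noncomputable def act1 (G : Module.End F P.V) (ω : Word K Γ n) : P.V :=
  P.act1aux G ω.1.1 ω.1.2 ω.2 (ω.1.1 P.kIn)

open Classical in
noncomputable def actE (G : Module.End F P.V) (ω : Word K Γ n) : P.V :=
  match strip P.ι (P.root ω.1.1) with
  | some c => P.act1 G ((c, ω.1.2), ω.2)
  | none => if P.Dead (P.root ω.1.1) then 0 else P.sg (consX X.E ((P.root ω.1.1, ω.1.2), ω.2))

noncomputable def act (G : Module.End F P.V) : Gen K Γ n → Word K Γ n → P.V
  | Sum.inl l, ω => P.sg ((cat (stk l.1 [l.2]) ω.1.1, ω.1.2), ω.2)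
  | Sum.inr (Sum.inl i), ω => P.jA ω.1.1 ω.2 (P.a i * ev P.a ω.1.2)
  | Sum.inr (Sum.inr X.E), ω => P.actE G ω
  | Sum.inr (Sum.inr X.e1), ω => P.act1 G ω
  | Sum.inr (Sum.inr X.e2), ω => G (P.sg ω)
  | Sum.inr (Sum.inr X.e3), ω => P.act3 ω
  | Sum.inr (Sum.inr X.x), ω => P.actX ω
  | Sum.inr (Sum.inr X.y), ω => P.sg (consX X.y ω)
  | Sum.inr (Sum.inr X.w), ω => P.sg (consX X.w ω)

noncomputable def LG (G : Module.End F P.V) (σ : Gen K Γ n) : Module.End F P.V :=
  P.ext (P.act G σ)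

open Classical in
noncomputable def step2 (G : Module.End F P.V) (ω : Word K Γ n) : P.V :=
  if h : ∃ p : Tok K Γ n × Cfg K Γ, ω.1.1 = cat (P.inW (P.tk p.1)) p.2 then
    Setup.tokv (P.LG G) h.choose.1 (G (P.sg ((h.choose.2, ω.1.2), ω.2)))
  else if (ω.1.1 P.kIn).head? = some (P.inl 2) then P.act3 ω
  else if (ω.1.1 P.kIn).head? = some P.bot then 0
  else P.sg (consX X.e2 ω)

theorem step2_tok (G : Module.End F P.V) (τ : Tok K Γ n) (c : Cfg K Γ) (b : List (Fin n))
    (tl : Tail K Γ n) :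
    P.step2 G ((cat (P.inW (P.tk τ)) c, b), tl) =
      Setup.tokv (P.LG G) τ (G (P.sg ((c, b), tl))) := by
  have h : ∃ p : Tok K Γ n × Cfg K Γ, cat (P.inW (P.tk τ)) c = cat (P.inW (P.tk p.1)) p.2 :=
    ⟨(τ, c), rfl⟩
  have h1 : h.choose.1 = τ := (Setup.tk_unique h.choose_spec).symm
  have h2 : h.choose.2 = c := by
    have := h.choose_spec
    rw [h1] at this
    exact (cat_left_cancel this).symm
  rw [step2, dif_pos h, h1, h2]

theorem step2_of_not (G : Module.End F P.V) {ω : Word K Γ n}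
    (h : ∀ τ c, ω.1.1 ≠ cat (P.inW (P.tk τ)) c) :
    P.step2 G ω = (open Classical in if (ω.1.1 P.kIn).head? = some (P.inl 2) then P.act3 ω
      else if (ω.1.1 P.kIn).head? = some P.bot then 0
      else P.sg (consX X.e2 ω)) := by
  rw [step2, dif_neg]
  rintro ⟨p, hp⟩
  exact h _ _ hp

/-! ### weight bounds -/

def Bdd (G : Module.End F P.V) : Prop := ∀ j, ∀ v ∈ P.Fil j, G v ∈ P.Fil j

theorem others_mem {N : ℕ} (ω : Word K Γ n) :
    P.others N ω ∈ P.Fil (P.wt (P.red N (P.ell N) ω)) := by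
  refine list_sum_mem fun v hv => ?_
  obtain ⟨p, hp, rfl⟩ := List.mem_map.1 hv
  have h1 := (P.mem_os P.ι hp).2.2
  have : P.sg (consX X.x (P.red N p.2 ω)) ∈ P.Fil (P.wt (P.red N (P.ell N) ω)) := by
    refine P.sg_mem_Fil ?_
    rw [Setup.wt_consX, Setup.wt_red, Setup.wt_red]
    omega
  cases p.1
  · exact this
  · exact neg_mem this

theorem actX_mem (ω : Word K Γ n) : P.actX ω ∈ P.Fil (P.wt ω) := by
  by_cases h : P.IsRed ω
  · obtain ⟨N, ω', hN, rfl⟩ := h
    rw [P.actX_red hN]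
    refine Submodule.smul_mem _ _ (sub_mem (P.sg_mem_Fil ?_) (P.others_mem _))
    rw [Setup.wt_red]
    omega
  · rw [P.actX_of_not h]
    exact P.sg_mem_Fil (by simp)

theorem act3_mem (ω : Word K Γ n) : P.act3 ω ∈ P.Fil (P.wt ω) := by
  unfold act3
  split_ifs with h
  · refine P.sg_mem_Fil ?_
    obtain ⟨μ, tl⟩ := ω
    cases tl with
    | nil => simp at h
    | cons p tl => simp [Setup.wt]
  · refine P.sg_mem_Fil ?_
    simp [Setup.wt, consX, one]

theorem wtC_update_in (c : Cfg K Γ) (l : List Γ) :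
    P.wtC (update c P.kIn l) = l.length + (c P.kHist).length := by
  simp [Mach.wtC, update_of_ne P.in_ne_hist.symm]

theorem act1aux_mem {G : Module.End F P.V} (hG : P.Bdd G) (c : Cfg K Γ) (b : List (Fin n))
    (tl : Tail K Γ n) (l : List Γ) :
    P.act1aux G c b tl l ∈ P.Fil (l.length + (c P.kHist).length + P.wtT tl) := by
  induction l with
  | nil => exact P.sg_mem_Fil (by simp [Setup.wt_mk, wtC_update_in])
  | cons γ l ih =>
    have ih' := P.Fil_mono (show l.length + (c P.kHist).length + P.wtT tl ≤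
      (γ :: l).length + (c P.kHist).length + P.wtT tl by simp) ih
    unfold act1aux
    split_ifs
    · exact zero_mem _
    · refine add_mem ih' (hG _ _ (P.sg_mem_Fil ?_))
      simp [Setup.wt_mk, wtC_update_in]
    · exact ih'

theorem act1_mem {G : Module.End F P.V} (hG : P.Bdd G) (ω : Word K Γ n) :
    P.act1 G ω ∈ P.Fil (P.wt ω) := P.act1aux_mem hG _ _ _ _

theorem wt_of_strip {c c' : Cfg K Γ} (h : strip P.ι (P.root c) = some c') : P.wtC c' ≤ P.wtC c := by
  have h1 := P.wtC_root_le c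
  rw [strip_eq_some.1 h, Mach.wtC_cat] at h1
  omega

theorem actE_mem {G : Module.End F P.V} (hG : P.Bdd G) (ω : Word K Γ n) :
    P.actE G ω ∈ P.Fil (P.wt ω) := by
  unfold actE
  split
  · rename_i c hc
    refine P.Fil_mono ?_ (P.act1_mem hG _)
    have := P.wt_of_strip hc
    simp only [Setup.wt]
    omega
  · split_ifs
    · exact zero_mem _
    · refine P.sg_mem_Fil ?_
      have := P.wtC_root_le ω.1.1
      simp only [Setup.wt_consX]
      simp only [Setup.wt]
      omega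

theorem act_mem {G : Module.End F P.V} (hG : P.Bdd G) (σ : Gen K Γ n) (ω : Word K Γ n) :
    P.act G σ ω ∈ P.Fil (P.wt ω + 1) := by
  have hle := P.Fil_mono (Nat.le_succ (P.wt ω))
  rcases σ with l | i | ξ
  · refine P.sg_mem_Fil ?_
    have := P.wtC_stk_le l.1 [l.2]
    simp only [Setup.wt, Mach.wtC_cat, List.length_singleton] at this ⊢
    omega
  · exact hle (P.jA_mem _ _ _)
  · cases ξ
    · exact hle (P.actE_mem hG ω)
    · exact hle (P.act1_mem hG ω)
    · exact hle (hG _ _ (P.sg_mem_Fil le_rfl))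
    · exact hle (P.act3_mem ω)
    · exact hle (P.actX_mem ω)
    · exact hle (P.sg_mem_Fil (by simp))
    · exact hle (P.sg_mem_Fil (by simp))

theorem LG_mem {G : Module.End F P.V} (hG : P.Bdd G) (σ : Gen K Γ n) {j : ℕ} {v : P.V}
    (hv : v ∈ P.Fil j) : P.LG G σ v ∈ P.Fil (j + 1) :=
  P.map_mem_of_Fil (fun ω h1 h2 => by
    rw [LG, P.ext_sg _ h1]
    exact P.Fil_mono (by omega) (P.act_mem hG σ ω)) hv

theorem wt_tok (τ : Tok K Γ n) (c : Cfg K Γ) (b : List (Fin n)) (tl : Tail K Γ n) :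
    P.wt ((c, b), tl) + 2 ≤ P.wt ((cat (P.inW (P.tk τ)) c, b), tl) := by
  have := P.length_tk (τ := τ)
  simp only [Setup.wt_mk, Mach.wtC_cat, Setup.wtC_inW]
  omega

theorem step2_mem {G : Module.End F P.V} (hG : P.Bdd G) (ω : Word K Γ n) :
    P.step2 G ω ∈ P.Fil (P.wt ω) := by
  obtain ⟨⟨c, b⟩, tl⟩ := ω
  by_cases h : ∃ τ c', c = cat (P.inW (P.tk τ)) c'
  · obtain ⟨τ, c', rfl⟩ := h
    rw [step2_tok]
    have h1 := hG _ _ (P.sg_mem_Fil (ω := ((c', b), tl)) le_rfl)
    have h2 := P.wt_tok τ c' b tl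
    cases τ with
    | none => exact neg_mem (P.Fil_mono (by omega) h1)
    | some σ => exact P.Fil_mono (by omega) (P.LG_mem hG σ h1)
  · push Not at h
    rw [P.step2_of_not G h]
    split_ifs
    · exact P.act3_mem _
    · exact zero_mem _
    · exact P.sg_mem_Fil (by simp)

/-! ### locality -/

theorem act1aux_congr {G G' : Module.End F P.V} {j : ℕ} (h : ∀ v ∈ P.Fil j, G v = G' v)
    (c : Cfg K Γ) (b : List (Fin n)) (tl : Tail K Γ n) (l : List Γ)
    (hl : l.length + (c P.kHist).length + P.wtT tl ≤ j) :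
    P.act1aux G c b tl l = P.act1aux G' c b tl l := by
  induction l with
  | nil => rfl
  | cons γ l ih =>
    simp only [List.length_cons] at hl
    unfold act1aux
    rw [ih (by omega), h _ (P.sg_mem_Fil ?_)]
    simp only [Setup.wt_mk, wtC_update_in]
    omega

theorem act1_congr {G G' : Module.End F P.V} {j : ℕ} (h : ∀ v ∈ P.Fil j, G v = G' v)
    {ω : Word K Γ n} (hω : P.wt ω ≤ j) : P.act1 G ω = P.act1 G' ω :=
  P.act1aux_congr h _ _ _ _ hω

theorem act_congr {G G' : Module.End F P.V} {j : ℕ} (h : ∀ v ∈ P.Fil j, G v = G' v)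
    (σ : Gen K Γ n) {ω : Word K Γ n} (hω : P.wt ω ≤ j) : P.act G σ ω = P.act G' σ ω := by
  rcases σ with l | i | ξ
  · rfl
  · rfl
  · cases ξ
    · simp only [act, actE]
      split
      · rename_i c hc
        refine P.act1_congr h ?_
        have := P.wt_of_strip hc
        simp only [Setup.wt] at hω ⊢
        omega
      · rfl
    · exact P.act1_congr h hω
    · exact h _ (P.sg_mem_Fil hω)
    all_goals rfl

theorem step2_congr {G G' : Module.End F P.V} (hG : P.Bdd G) {j : ℕ}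
    (h : ∀ ω, P.nf ω → P.wt ω < j → G (P.sg ω) = G' (P.sg ω)) {ω : Word K Γ n}
    (hω : P.wt ω ≤ j) : P.step2 G ω = P.step2 G' ω := by
  obtain ⟨⟨c, b⟩, tl⟩ := ω
  by_cases hc : ∃ τ c', c = cat (P.inW (P.tk τ)) c'
  · obtain ⟨τ, c', rfl⟩ := hc
    rw [step2_tok, step2_tok]
    have h2 := P.wt_tok τ c' b tl
    have h3 : ∀ v ∈ P.Fil (P.wt ((c', b), tl)), G v = G' v := fun v hv =>
      P.eq_of_Fil (fun ω h4 h5 => h ω h4 (by omega)) hv
    have h1 := P.sg_mem_Fil (ω := ((c', b), tl)) le_rfl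
    rw [← h3 _ h1]
    cases τ with
    | none => rfl
    | some σ =>
      refine P.eq_of_Fil (fun ω h4 h5 => ?_) (hG _ _ h1)
      simp only [Setup.tokv, LG]
      rw [P.ext_sg _ h4, P.ext_sg _ h4, P.act_congr h3 σ h5]
  · push Not at hc
    rw [P.step2_of_not G hc, P.step2_of_not G' hc]

/-! ### the fixed point -/

noncomputable def gN : ℕ → Module.End F P.V
  | 0 => 0
  | N + 1 => P.ext (P.step2 (gN N))

theorem gN_bdd (N : ℕ) : P.Bdd (P.gN N) := by
  induction N with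
  | zero => exact fun j v _ => zero_mem _
  | succ N ih =>
    refine fun j v hv => P.map_mem_of_Fil (fun ω h1 h2 => ?_) hv
    rw [gN, P.ext_sg _ h1]
    exact P.Fil_mono h2 (P.step2_mem ih ω)

theorem gN_stable (N : ℕ) : ∀ N', N ≤ N' → ∀ ω, P.nf ω → P.wt ω < N →
    P.gN N (P.sg ω) = P.gN N' (P.sg ω) := by
  induction N with
  | zero => intro N' _ ω _ h; omega
  | succ N ih =>
    intro N' hN' ω h1 h2
    obtain ⟨N'', rfl⟩ : ∃ N'', N' = N'' + 1 := ⟨N' - 1, by omega⟩
    rw [gN, gN, P.ext_sg _ h1, P.ext_sg _ h1]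
    exact P.step2_congr (P.gN_bdd N) (ih N'' (by omega)) (by omega)

noncomputable def G : Module.End F P.V := P.ext fun ω => P.gN (P.wt ω + 1) (P.sg ω)

theorem G_bdd : P.Bdd P.G := fun j v hv => P.map_mem_of_Fil (fun ω h1 h2 => by
  rw [G, P.ext_sg _ h1]
  exact P.gN_bdd _ _ _ (P.sg_mem_Fil h2)) hv

theorem G_sg {ω : Word K Γ n} (h : P.nf ω) : P.G (P.sg ω) = P.step2 P.G ω := by
  rw [G, P.ext_sg _ h, gN, P.ext_sg _ h]
  refine P.step2_congr (P.gN_bdd _) (fun ω' h1 h2 => ?_) le_rfl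
  rw [P.ext_sg _ h1]
  exact (P.gN_stable _ _ (by omega) ω' h1 (by omega)).symm

/-- the action of the generators -/
noncomputable def L (σ : Gen K Γ n) : Module.End F P.V := P.LG P.G σ

theorem L_sg (σ : Gen K Γ n) {ω : Word K Γ n} (h : P.nf ω) : P.L σ (P.sg ω) = P.act P.G σ ω :=
  P.ext_sg _ h

theorem L_e2 : P.L (Sum.inr (Sum.inr X.e2)) = P.G :=
  P.hom_ext fun ω h => by rw [P.L_sg _ h]; rfl

end Model

end Pool.Agent.Lib.MP_4d37d6_al
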