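import Pool.Agent.Lib.MP_4d37d6_al.Rep

/-!
The family of relations imposed by the machine is computable.
-/

set_option autoImplicit false

namespace Pool.Agent.Lib.MP_4d37d6_al

open Function

section General

variable {α β σ : Type} [Primcodable α] [Primcodable β] [Primcodable σ]

theorem pr_sum : Primrec (List.sum : List ℕ → ℕ) :=
  (Primrec.list_foldr Primrec.id (Primrec.const 0)
    (Primrec.nat_add.comp (Primrec.fst.comp Primrec.snd) (Primrec.snd.comp Primrec.snd)).to₂).of_eq
    fun l => by
      change l.foldr (fun b s => b + s) 0 = l.sum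
      induction l <;> simp [*]

theorem pr_replicate {f : α → ℕ} {g : α → β} (hf : Primrec f) (hg : Primrec g) :
    Primrec fun a => List.replicate (f a) (g a) :=
  (Primrec.list_map (Primrec.list_range.comp hf) (hg.comp Primrec.fst).to₂).of_eq fun a => by simp

theorem prp_cases [Finite β] {R : α → β → Prop} (h : ∀ b, PrimrecPred fun a => R a b) :
    PrimrecPred fun p : α × β => R p.1 p.2 := by
  obtain ⟨l, -, hl⟩ := Finite.exists_univ_list β
  have : ∀ l : List β, PrimrecPred fun p : α × β => ∃ b ∈ l, p.2 = b ∧ R p.1 b := by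
    intro l
    induction l with
    | nil => exact ((Primrec.eq.comp (Primrec.const 0) (Primrec.const 1))).of_eq fun _ => by simp
    | cons b l ih =>
      exact (((Primrec.eq.comp Primrec.snd (Primrec.const b)).and ((h b).comp Primrec.fst)).or
        ih).of_eq fun _ => by simp only [List.exists_mem_cons_iff]
  exact (this l).of_eq fun p => by simp [hl]

omit [Primcodable β] in
theorem prp_forall [Finite β] {R : α → β → Prop} (h : ∀ b, PrimrecPred fun a => R a b) :
    PrimrecPred fun a => ∀ b, R a b := by
  obtain ⟨l, -, hl⟩ := Finite.exists_univ_list β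
  have : ∀ l : List β, PrimrecPred fun a => ∀ b ∈ l, R a b := by
    intro l
    induction l with
    | nil => exact ((Primrec.eq.comp (Primrec.const 0) (Primrec.const 0))).of_eq fun _ => by simp
    | cons b l ih => exact ((h b).and ih).of_eq fun _ => by simp
  exact (this l).of_eq fun p => by simp [hl]

theorem comp_list_map {f : α → List β} {g : α → β → σ} (hf : Computable f) (hg : Computable₂ g) :
    Computable fun a => (f a).map (g a) := by
  have h := Computable.nat_rec (f := fun a => (f a).length) (g := fun _ => ([] : List σ))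
    (h := fun a p => p.2 ++ (((f a)[p.1]?).map (g a)).toList) (Computable.list_length.comp hf)
    (Computable.const _)
    (Computable.list_append.comp (Computable.snd.comp Computable.snd)
      (Primrec.optionToList.to_comp.comp (Computable.option_map
        (Computable.list_getElem?.comp (hf.comp Computable.fst)
          (Computable.fst.comp Computable.snd))
        (hg.comp (Computable.fst.comp Computable.fst) Computable.snd).to₂))).to₂
  refine h.of_eq fun a => ?_
  have : ∀ k : ℕ, Nat.rec (motive := fun _ => List σ) []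
      (fun y IH => IH ++ (((f a)[y]?).map (g a)).toList) k = ((f a).take k).map (g a) := by
    intro k
    induction k with
    | zero => simp
    | succ k ih =>
      rw [List.take_add_one, List.map_append, ← ih]
      change _ ++ (((f a)[k]?).map (g a)).toList = _
      cases (f a)[k]? <;> rfl
  simpa using this (f a).length

theorem cp_comp {p : β → Prop} {f : α → β} (hp : ComputablePred p) (hf : Computable f) :
    ComputablePred fun a => p (f a) := by
  classical
  exact (hp.decide.comp hf).computablePred

theorem cp_and {p q : α → Prop} (hp : ComputablePred p) (hq : ComputablePred q) :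
    ComputablePred fun a => p a ∧ q a := by
  classical
  exact Computable.computablePred ((Primrec.and.to_comp.comp hp.decide hq.decide).of_eq
    fun a => by simp)

theorem comp_ite {p : α → Prop} [DecidablePred p] {f g : α → σ} (hp : ComputablePred p)
    (hf : Computable f) (hg : Computable g) : Computable fun a => if p a then f a else g a :=
  (Computable.cond hp.decide hf hg).of_eq fun a => by simp [Bool.cond_decide]

theorem cp_forall_mem {f : α → List β} {R : α → β → Prop} (hf : Computable f)
    (hR : ComputablePred fun p : α × β => R p.1 p.2) : ComputablePred fun a => ∀ b ∈ f a, R a b := by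
  classical
  have h1 : Computable fun a => (f a).map fun b => decide (R a b) := comp_list_map hf hR.decide
  have h2 : PrimrecPred fun L : List Bool => ∀ x ∈ L, x = true :=
    PrimrecPred.forall_mem_list (Primrec.eq.comp Primrec.id (Primrec.const true))
  exact (cp_comp h2.computablePred h1).of_eq fun a => by simp

theorem comp_filter {f : α → List β} {R : α → β → Prop} [∀ a b, Decidable (R a b)]
    (hf : Computable f) (hR : ComputablePred fun p : α × β => R p.1 p.2) :
    Computable fun a => (f a).filter fun b => decide (R a b) := by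
  have h1 : Computable fun a => (f a).map fun b => if R a b then [b] else [] :=
    comp_list_map hf (comp_ite hR
      (Computable.list_cons.comp Computable.snd (Computable.const [])) (Computable.const []))
  refine (Primrec.list_flatten.to_comp.comp h1).of_eq fun a => ?_
  induction f a with
  | nil => rfl
  | cons b l ih =>
    rw [List.map_cons, List.flatten_cons, ih, List.filter_cons]
    by_cases h : R a b <;> simp [h]

end General

noncomputable instance : Primcodable X :=
  Primcodable.ofEquiv (Fin (Fintype.card X)) (Fintype.equivFin X)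

variable {K Γ : Type} {n : ℕ} [Fintype K] [Primcodable K] [Primcodable Γ]

noncomputable def cfgEquiv (K Γ : Type) [Fintype K] :
    Cfg K Γ ≃ (Fin (Fintype.card K) → List Γ) :=
  Equiv.arrowCongr (Fintype.equivFin K) (Equiv.refl _)

noncomputable instance cfgPrimcodable : Primcodable (Cfg K Γ) :=
  Primcodable.ofEquiv _ (cfgEquiv K Γ)

section Cfg

variable {α : Type} [Primcodable α]

theorem pr_app₂ {c : α → Cfg K Γ} {k : α → K} (hc : Primrec c) (hk : Primrec k) :
    Primrec fun a => c a (k a) :=
  (Primrec.fin_app.comp ((Primrec.of_equiv (e := cfgEquiv K Γ)).comp hc)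
    ((Primrec.dom_finite (Fintype.equivFin K)).comp hk)).of_eq fun a => by simp [cfgEquiv]

theorem pr_app {c : α → Cfg K Γ} (hc : Primrec c) (k : K) : Primrec fun a => c a k :=
  pr_app₂ hc (Primrec.const k)

omit [Primcodable K] in
theorem pr_cfg {c : α → Cfg K Γ} (h : ∀ k, Primrec fun a => c a k) : Primrec c := by
  refine (Primrec.of_equiv_iff (cfgEquiv K Γ)).1 (Primrec.fin_curry.2 ?_)
  have := (Primrec.fin_curry₁ (f := fun i a => c a ((Fintype.equivFin K).symm i))).2 fun i => h _
  exact this.swap.of_eq fun a i => by simp [cfgEquiv]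

theorem pr_cat {u c : α → Cfg K Γ} (hu : Primrec u) (hc : Primrec c) :
    Primrec fun a => cat (u a) (c a) :=
  pr_cfg fun k => Primrec.list_append.comp (pr_app hu k) (pr_app hc k)

omit [Primcodable K] in
theorem pr_stk [DecidableEq K] (k : K) {l : α → List Γ} (hl : Primrec l) :
    Primrec fun a => stk k (l a) :=
  pr_cfg fun k' => by
    by_cases h : k' = k
    · subst h; simpa using hl
    · simpa [stk_ne h] using Primrec.const []

theorem pr_strip {u c : α → Cfg K Γ} (hu : Primrec u) (hc : Primrec c) :
    Primrec fun a => strip (u a) (c a) := by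
  classical
  have h1 : Primrec fun a => (fun k => (c a k).drop (u a k).length : Cfg K Γ) :=
    pr_cfg fun k => Primrec.list_drop.comp (Primrec.list_length.comp (pr_app hu k)) (pr_app hc k)
  exact (Primrec.ite (Primrec.eq.comp (pr_cat hu h1) hc) (Primrec.option_some.comp h1)
    (Primrec.const none)).of_eq fun a => by
      unfold strip
      split_ifs <;> rfl

end Cfg

namespace Mach

variable [DecidableEq K] [Finite Γ] (M : Mach K Γ)

theorem pr_fwd : Primrec M.fwd := by
  have hρ : Primrec fun a : (Cfg K Γ × Γ) × (Cfg K Γ × Cfg K Γ) => [a.1.2] :=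
    Primrec.list_cons.comp (Primrec.snd.comp Primrec.fst) (Primrec.const [])
  have h1 : Primrec₂ fun (a : Cfg K Γ × Γ) (p : Cfg K Γ × Cfg K Γ) =>
      (strip (cat (stk M.kCert [a.2]) p.1) a.1).map (cat (cat (stk M.kHist [a.2]) p.2)) :=
    Primrec.option_map
      (pr_strip (pr_cat (pr_stk _ hρ) (Primrec.fst.comp Primrec.snd))
        (Primrec.fst.comp Primrec.fst))
      (pr_cat ((pr_cat (pr_stk _ hρ) (Primrec.snd.comp Primrec.snd)).comp Primrec.fst)
        Primrec.snd).to₂
  have h2 : Primrec₂ fun (c : Cfg K Γ) (ρ : Γ) => (M.rule ρ).bind fun p =>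
      (strip (cat (stk M.kCert [ρ]) p.1) c).map (cat (cat (stk M.kHist [ρ]) p.2)) :=
    Primrec.option_bind ((Primrec.dom_finite M.rule).comp Primrec.snd) h1
  exact Primrec.option_bind (Primrec.list_head?.comp (pr_app Primrec.id _)) h2

theorem pr_bwd : Primrec M.bwd := by
  have hρ : Primrec fun a : (Cfg K Γ × Γ) × (Cfg K Γ × Cfg K Γ) => [a.1.2] :=
    Primrec.list_cons.comp (Primrec.snd.comp Primrec.fst) (Primrec.const [])
  have h1 : Primrec₂ fun (a : Cfg K Γ × Γ) (p : Cfg K Γ × Cfg K Γ) =>
      (strip (cat (stk M.kHist [a.2]) p.2) a.1).map (cat (cat (stk M.kCert [a.2]) p.1)) :=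
    Primrec.option_map
      (pr_strip (pr_cat (pr_stk _ hρ) (Primrec.snd.comp Primrec.snd))
        (Primrec.fst.comp Primrec.fst))
      (pr_cat ((pr_cat (pr_stk _ hρ) (Primrec.fst.comp Primrec.snd)).comp Primrec.fst)
        Primrec.snd).to₂
  have h2 : Primrec₂ fun (c : Cfg K Γ) (ρ : Γ) => (M.rule ρ).bind fun p =>
      (strip (cat (stk M.kHist [ρ]) p.2) c).map (cat (cat (stk M.kCert [ρ]) p.1)) :=
    Primrec.option_bind ((Primrec.dom_finite M.rule).comp Primrec.snd) h1
  exact Primrec.option_bind (Primrec.list_head?.comp (pr_app Primrec.id _)) h2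

theorem pr_fwd' : Primrec M.fwd' := Primrec.option_getD.comp M.pr_fwd Primrec.id

theorem pr_dead : PrimrecPred M.Dead := by
  have h1 : PrimrecRel fun (j : ℕ) (c : Cfg K Γ) => ((M.fwd'^[j] c) M.kSt).head? = some M.acc :=
    Primrec.eq.comp (Primrec.list_head?.comp (pr_app
      (Primrec.nat_iterate Primrec.fst Primrec.snd (M.pr_fwd'.comp Primrec.snd).to₂) _))
      (Primrec.const _)
  exact (h1.exists_mem_list.comp (Primrec.list_range.comp (Primrec.succ.comp
    (Primrec.list_length.comp (pr_app Primrec.id M.kCert)))) Primrec.id).of_eq fun c => by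
      simp [M.dead_iff]

omit [DecidableEq K] [Finite Γ] in
theorem pr_wtC : Primrec M.wtC :=
  Primrec.nat_add.comp (Primrec.list_length.comp (pr_app Primrec.id _))
    (Primrec.list_length.comp (pr_app Primrec.id _))

end Mach

theorem pr_flatC [Finite Γ] : Primrec (flatC : Cfg K Γ → List (Gen K Γ n)) :=
  Primrec.list_flatMap (Primrec.const _) (Primrec.list_map (pr_app₂ Primrec.fst Primrec.snd)
    ((Primrec.dom_finite gC).comp ((Primrec.snd.comp Primrec.fst).pair Primrec.snd)).to₂).to₂

theorem pr_flatM [Finite Γ] : Primrec (flatM : Mid K Γ n → List (Gen K Γ n)) :=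
  Primrec.list_append.comp (pr_flatC.comp Primrec.fst)
    (Primrec.list_map Primrec.snd ((Primrec.dom_finite gA).comp Primrec.snd).to₂)

theorem pr_flat [Finite Γ] : Primrec (flat : Word K Γ n → List (Gen K Γ n)) :=
  Primrec.list_append.comp (pr_flatM.comp Primrec.fst)
    (Primrec.list_flatMap Primrec.snd (Primrec.list_cons.comp
      ((Primrec.dom_finite gX).comp (Primrec.fst.comp Primrec.snd))
      (pr_flatM.comp (Primrec.snd.comp Primrec.snd))).to₂)

omit [Primcodable K] in
theorem pr_consX (ξ : X) : Primrec (consX ξ : Word K Γ n → Word K Γ n) :=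
  (Primrec.const _).pair
    (Primrec.list_cons.comp ((Primrec.const ξ).pair Primrec.fst) Primrec.snd)

namespace Setup

variable [DecidableEq K] [Finite Γ] (S : Setup K Γ n)

omit [DecidableEq K] [Finite Γ] in
theorem pr_wt : Primrec S.wt :=
  Primrec.nat_add.comp (S.pr_wtC.comp (Primrec.fst.comp Primrec.fst))
    (pr_sum.comp (Primrec.list_map Primrec.snd
      (S.pr_wtC.comp (Primrec.fst.comp (Primrec.snd.comp Primrec.snd))).to₂))

omit [Primcodable K] [Finite Γ] in
theorem pr_idx : Primrec S.idx :=
  (pr_stk _ (Primrec.list_map (pr_replicate Primrec.id (Primrec.const 0))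
    ((Primrec.dom_finite S.inl).comp Primrec.snd).to₂)).pair (Primrec.const [])

omit [Primcodable K] [Finite Γ] in
theorem pr_red {α : Type} [Primcodable α] {N : α → ℕ} {o ω : α → Word K Γ n} (hN : Primrec N)
    (ho : Primrec o) (hω : Primrec ω) : Primrec fun a => S.red (N a) (o a) (ω a) :=
  (S.pr_idx.comp hN).pair (Primrec.list_cons.comp ((Primrec.const X.w).pair (Primrec.fst.comp ho))
    (Primrec.list_append.comp (Primrec.snd.comp ho)
      (Primrec.list_cons.comp ((Primrec.const X.y).pair (S.pr_idx.comp hN))
        (Primrec.list_cons.comp ((Primrec.const X.w).pair (Primrec.fst.comp hω))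
          (Primrec.snd.comp hω)))))

variable {S} (hd : Primrec S.data)
include hd

omit [Primcodable K] [DecidableEq K] [Finite Γ] in
theorem pr_ell : Primrec S.ell := Primrec.fst.comp hd

omit [Finite Γ] in
theorem pr_isRed : PrimrecPred S.IsRed := by
  have hN : Primrec fun ω : Word K Γ n => S.wtC ω.1.1 :=
    S.pr_wtC.comp (Primrec.fst.comp Primrec.fst)
  have hl : Primrec fun ω : Word K Γ n => S.ell (S.wtC ω.1.1) := (pr_ell hd).comp hN
  have hr : Primrec fun ω : Word K Γ n => ω.2.drop ((S.ell (S.wtC ω.1.1)).2.length + 2) :=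
    Primrec.list_drop.comp (Primrec.nat_add.comp (Primrec.list_length.comp (Primrec.snd.comp hl))
      (Primrec.const 2)) Primrec.snd
  have hω : Primrec fun ω : Word K Γ n =>
      ((((ω.2.drop ((S.ell (S.wtC ω.1.1)).2.length + 2)).head?.getD (X.w, one)).2,
        (ω.2.drop ((S.ell (S.wtC ω.1.1)).2.length + 2)).tail) : Word K Γ n) :=
    (Primrec.snd.comp (Primrec.option_getD.comp (Primrec.list_head?.comp hr)
      (Primrec.const _))).pair (Primrec.list_tail.comp hr)
  refine ((Primrec.nat_lt.comp (S.pr_wt.comp hl) hN).and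
    (Primrec.eq.comp Primrec.id (S.pr_red hN hl hω))).of_eq fun ω => ⟨fun h => ⟨_, _, h⟩, ?_⟩
  rintro ⟨N, ω', hw, rfl⟩
  have h1 : S.wtC (S.red N (S.ell N) ω').1.1 = N := S.wtC_idx N
  rw [h1]
  refine ⟨hw, ?_⟩
  have h2 : (S.red N (S.ell N) ω').2.drop ((S.ell N).2.length + 2) = (X.w, ω'.1) :: ω'.2 := by
    simp [red, vT, List.drop_append]
  rw [h2]
  rfl

theorem pr_irr : PrimrecPred fun p : (Cfg K Γ × Word K Γ n) × X => S.irr p.1.1 p.2 p.1.2 := by
  refine prp_cases (R := fun (a : Cfg K Γ × Word K Γ n) ξ => S.irr a.1 ξ a.2) fun ξ => ?_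
  have hc : Primrec fun a : Cfg K Γ × Word K Γ n => a.2.1.1 :=
    Primrec.fst.comp (Primrec.fst.comp Primrec.snd)
  cases ξ with
  | E =>
    exact (Primrec.eq.comp (S.pr_bwd.comp hc) (Primrec.const none)).and
      ((Primrec.eq.comp (pr_strip Primrec.fst hc) (Primrec.const none)).and
        (S.pr_dead.comp hc).not)
  | e1 => exact Primrec.eq.comp (pr_app hc _) (Primrec.const [])
  | e2 =>
    exact (prp_forall fun τ =>
      Primrec.eq.comp (pr_strip (Primrec.const _) hc) (Primrec.const none)).and
      ((Primrec.eq.comp (Primrec.list_head?.comp (pr_app hc _)) (Primrec.const _)).not.and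
        (Primrec.eq.comp (Primrec.list_head?.comp (pr_app hc _)) (Primrec.const _)).not)
  | e3 =>
    exact (Primrec.eq.comp hc (Primrec.const _)).and
      ((Primrec.eq.comp (Primrec.snd.comp (Primrec.fst.comp Primrec.snd)) (Primrec.const _)).and
        (Primrec.eq.comp ((Primrec.option_map₁ Primrec.fst).comp
          (Primrec.list_head?.comp (Primrec.snd.comp Primrec.snd))) (Primrec.const _))).not
  | x => exact ((pr_isRed hd).comp Primrec.snd).not
  | y => exact ((Primrec.eq.comp (Primrec.const 0) (Primrec.const 0))).of_eq fun _ => by simp [irr]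
  | w => exact ((Primrec.eq.comp (Primrec.const 0) (Primrec.const 0))).of_eq fun _ => by simp [irr]

theorem pr_irrAll : PrimrecPred fun p : Cfg K Γ × Tail K Γ n => S.IrrAll p.1 p.2 := by
  classical
  have h1 : Primrec fun q : (Cfg K Γ × Tail K Γ n) × ((X × Mid K Γ n) × Tail K Γ n × Bool) =>
      decide (S.irr q.1.1 q.2.1.1 (q.2.1.2, q.2.2.1)) :=
    (pr_irr hd).decide.comp (((Primrec.fst.comp Primrec.fst).pair
      ((Primrec.snd.comp (Primrec.fst.comp Primrec.snd)).pair
        (Primrec.fst.comp (Primrec.snd.comp Primrec.snd)))).pair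
      (Primrec.fst.comp (Primrec.fst.comp Primrec.snd)))
  have h2 := Primrec.list_rec (f := fun p : Cfg K Γ × Tail K Γ n => p.2) (g := fun _ => true)
    (h := fun p q => (decide (S.irr p.1 q.1.1 (q.1.2, q.2.1)) && q.2.2)) Primrec.snd
    (Primrec.const true)
    (Primrec.and.comp h1 (Primrec.snd.comp (Primrec.snd.comp Primrec.snd))).to₂
  refine (Primrec.eq.comp h2 (Primrec.const true)).of_eq fun p => ?_
  obtain ⟨ι, tl⟩ := p
  induction tl with
  | nil => simp [IrrAll]
  | cons q tl ih =>
    simp only at ih
    simp [IrrAll, ih]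

variable (hB : ComputablePred fun b => b ∈ S.B)
include hB

theorem cp_NF : ComputablePred fun p : Cfg K Γ × Word K Γ n => S.NF p.1 p.2 :=
  cp_and (cp_comp hB (Primrec.snd.comp (Primrec.fst.comp Primrec.snd)).to_comp)
    (cp_and (cp_forall_mem (R := fun _ (q : X × Mid K Γ n) => q.2.2 ∈ S.B)
        (Primrec.snd.comp Primrec.snd).to_comp
        (cp_comp hB (Primrec.snd.comp (Primrec.snd.comp Primrec.snd)).to_comp))
      ((pr_irrAll hd).comp (Primrec.fst.pair (Primrec.snd.comp Primrec.snd))).computablePred)

theorem comp_os : Computable fun p : Cfg K Γ × ℕ => S.os p.1 p.2 := by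
  classical
  have hl : Primrec fun q : (Cfg K Γ × ℕ) × (Bool × Word K Γ n) => S.ell q.1.2 :=
    (pr_ell hd).comp (Primrec.snd.comp Primrec.fst)
  have ho : Primrec fun q : (Cfg K Γ × ℕ) × (Bool × Word K Γ n) => q.2.2 :=
    Primrec.snd.comp Primrec.snd
  refine (comp_filter (R := fun (p : Cfg K Γ × ℕ) (q : Bool × Word K Γ n) =>
      S.NF p.1 q.2 ∧ q.2 ≠ S.ell p.2 ∧ S.wt q.2 ≤ S.wt (S.ell p.2))
    (Primrec.snd.comp (Primrec.snd.comp (hd.comp Primrec.snd))).to_comp
    (cp_and (cp_comp (cp_NF hd hB) ((Primrec.fst.comp Primrec.fst).pair ho).to_comp)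
      ((Primrec.eq.comp ho hl).not.and
        (Primrec.nat_le.comp (S.pr_wt.comp ho) (S.pr_wt.comp hl))).computablePred)).of_eq
    fun p => ?_
  unfold os
  exact List.filter_congr fun q _ => decide_eq_decide.2 Iff.rfl

omit hB [Primcodable K] [DecidableEq K] [Finite Γ] in
theorem pr_kk : Primrec S.kk := by
  have h1 : Primrec fun N => (S.data N).2.1 := Primrec.fst.comp (Primrec.snd.comp hd)
  exact Primrec.ite ((Primrec.eq.comp (Primrec.nat_mod.comp h1 (Primrec.const S.ch))
    (Primrec.const 0)).of_eq fun N => (Nat.dvd_iff_mod_eq_zero ..).symm) (Primrec.const 1) h1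

omit hB hd in
theorem pr_uv : Primrec₂ S.uv :=
  pr_flat.comp ((pr_consX X.x).comp (S.pr_red Primrec.fst Primrec.snd (Primrec.const _)))

theorem comp_simpTerms : Computable fun p : Cfg K Γ × ℕ => S.simpTerms p.1 p.2 := by
  classical
  have hl : Primrec fun p : Cfg K Γ × ℕ => S.ell p.2 := (pr_ell hd).comp Primrec.snd
  refine comp_ite (cp_and (cp_comp (cp_NF hd hB) (Primrec.fst.pair hl).to_comp)
    (Primrec.nat_lt.comp (S.pr_wt.comp hl) Primrec.snd).computablePred) ?_ (Computable.const _)
  refine Computable.list_cons.comp (Computable.const _) (Computable.list_append.comp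
    (pr_replicate ((pr_kk hd).comp Primrec.snd)
      ((Primrec.const false).pair (pr_uv.comp Primrec.snd hl))).to_comp ?_)
  exact comp_list_map (comp_os hd hB) ((Primrec.fst.comp Primrec.snd).pair
    (pr_uv.comp (Primrec.snd.comp Primrec.fst) (Primrec.snd.comp Primrec.snd))).to₂.to_comp

theorem comp_relTerms {gR : ℕ → Terms (Fin n)} (hg : Computable gR) :
    Computable fun p : Cfg K Γ × ℕ => S.relTerms p.1 gR p.2 := by
  have h2 : Primrec fun p : Cfg K Γ × ℕ => p.2 / 2 :=
    Primrec.nat_div.comp Primrec.snd (Primrec.const 2)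
  refine comp_ite (Primrec.eq.comp (Primrec.nat_mod.comp Primrec.snd (Primrec.const 2))
    (Primrec.const 0)).computablePred ?_
    ((comp_simpTerms hd hB).comp (Primrec.fst.pair h2).to_comp)
  have h3 : Primrec fun t : Terms (Fin n) =>
      (t.map fun p => (p.1, p.2.map gA) : Terms (Gen K Γ n)) :=
    Primrec.list_map Primrec.id ((Primrec.fst.comp Primrec.snd).pair
      (Primrec.list_map (Primrec.snd.comp Primrec.snd)
        ((Primrec.dom_finite gA).comp Primrec.snd).to₂)).to₂
  exact h3.to_comp.comp (hg.comp h2.to_comp)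

omit hB hd [DecidableEq K] in
theorem pr_str : Primrec S.str := by
  have h1 : Primrec S.strT :=
    Primrec.list_append.comp (Primrec.cond Primrec.fst (Primrec.const _) (Primrec.const _))
      (Primrec.list_flatMap Primrec.snd
        ((Primrec.dom_finite fun σ => S.tk (some σ)).comp Primrec.snd).to₂)
  exact Primrec.list_append.comp (Primrec.list_flatMap Primrec.id
    (Primrec.list_cons.comp (Primrec.const 2) (h1.comp Primrec.snd)).to₂) (Primrec.const _)

end Setup

end Pool.Agent.Lib.MP_4d37d6_al
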