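import Pool.Agent.Lib.MP_4d37d6_al.Stack

/-!
A stack machine simulating the Turing machine which evaluates a `ToPartrec.Code`.
-/

set_option autoImplicit false

namespace Pool.Agent.Lib.MP_4d37d6_al

open Function Turing Turing.PartrecToTM2

namespace TM

abbrev STM := TM2.Stmt (fun _ : K' => Γ') Λ' (Option Γ')

abbrev Stk := K' → List Γ'

def tr' (l : Λ') : STM := tr l

/-! ### micro steps -/

def nxt : STM → Option Γ' → Stk → Option (STM × Option Γ' × Stk)
  | TM2.Stmt.push k f q, v, S => some (q, v, update S k (f v :: S k))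
  | TM2.Stmt.peek k f q, v, S => some (q, f v (S k).head?, S)
  | TM2.Stmt.pop k f q, v, S => some (q, f v (S k).head?, update S k (S k).tail)
  | TM2.Stmt.load a q, v, S => some (q, a v, S)
  | TM2.Stmt.branch f q₁ q₂, v, S => some (cond (f v) q₁ q₂, v, S)
  | TM2.Stmt.goto f, v, S => some (tr' (f v), v, S)
  | TM2.Stmt.halt, _, _ => none

inductive MH : STM → Option Γ' → Stk → Prop
  | halt {q v S} : nxt q v S = none → MH q v S
  | step {q v S q' v' S'} : nxt q v S = some (q', v', S') → MH q' v' S' → MH q v S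

def H (q : STM) (v : Option Γ') (S : Stk) : Prop :=
  (StateTransition.eval (TM2.step tr') (TM2.stepAux q v S)).Dom

theorem eval_step {x y : TM2.Cfg (fun _ : K' => Γ') Λ' (Option Γ')} (h : TM2.step tr' x = some y) :
    StateTransition.eval (TM2.step tr') x = StateTransition.eval (TM2.step tr') y :=
  StateTransition.reaches_eval (Relation.ReflTransGen.single h)

theorem H_nxt {q v S q' v' S'} (h : nxt q v S = some (q', v', S')) : H q v S ↔ H q' v' S' := by
  cases q with
  | branch f q₁ q₂ =>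
    simp only [nxt, Option.some.injEq, Prod.mk.injEq] at h
    obtain ⟨rfl, rfl, rfl⟩ := h
    unfold H
    cases hf : f v <;> simp [hf]
  | goto f =>
    simp only [nxt, Option.some.injEq, Prod.mk.injEq] at h
    obtain ⟨rfl, rfl, rfl⟩ := h
    unfold H
    rw [TM2.stepAux, eval_step rfl]
  | halt => simp [nxt] at h
  | _ =>
    simp only [nxt, Option.some.injEq, Prod.mk.injEq] at h
    obtain ⟨rfl, rfl, rfl⟩ := h
    rfl

theorem H_of_none {q v S} (h : nxt q v S = none) : H q v S := by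
  cases q with
  | halt => exact Part.dom_iff_mem.2 ⟨_, StateTransition.mem_eval.2 ⟨.refl, rfl⟩⟩
  | _ => simp [nxt] at h

theorem MH_of_H {q v S} (h : H q v S) : MH q v S := by
  let Gd : TM2.Cfg (fun _ : K' => Γ') Λ' (Option Γ') → Prop := fun x =>
    ∀ l, x.l = some l → MH (tr' l) x.var x.stk
  have h1 : ∀ (q : STM) v S, Gd (TM2.stepAux q v S) → MH q v S := by
    intro q
    induction q with
    | push k f q ih => exact fun v S h => .step rfl (ih _ _ h)
    | peek k f q ih => exact fun v S h => .step rfl (ih _ _ h)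
    | pop k f q ih => exact fun v S h => .step rfl (ih _ _ h)
    | load a q ih => exact fun v S h => .step rfl (ih _ _ h)
    | branch f q₁ q₂ ih₁ ih₂ =>
      intro v S h
      refine .step rfl ?_
      rw [TM2.stepAux] at h
      cases hf : f v
      · rw [hf] at h; exact ih₂ _ _ h
      · rw [hf] at h; exact ih₁ _ _ h
    | goto f => exact fun v S h => .step rfl (h _ rfl)
    | halt => exact fun v S _ => .halt rfl
  obtain ⟨b, hb⟩ := Part.dom_iff_mem.1 h
  refine h1 q v S (StateTransition.evalInduction (C := Gd) hb ?_)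
  rintro ⟨l, v, S⟩ - ih l' hl
  simp only at hl
  subst hl
  exact h1 _ _ _ (ih _ rfl)

/-! ### binary codes -/

def enc (s : List (Fin 3)) : ℕ := s.foldl (fun a i => 4 * a + i.val) 1

def bits (i : Fin 3) : List Γ' := ![[.bit0, .bit0], [.bit1, .bit0], [.bit0, .bit1]] i

theorem enc_concat (s : List (Fin 3)) (i : Fin 3) : enc (s ++ [i]) = 4 * enc s + i.val := by
  simp [enc]

theorem enc_pos (s : List (Fin 3)) : 0 < enc s := by
  induction s using List.reverseRecOn with
  | nil => simp [enc]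
  | append_singleton s i ih => rw [enc_concat]; omega

theorem enc_injective : Injective enc := by
  intro s
  induction s using List.reverseRecOn with
  | nil =>
    intro s' h
    induction s' using List.reverseRecOn with
    | nil => rfl
    | append_singleton s' i _ =>
      have := enc_pos s'
      rw [enc_concat] at h
      simp only [enc, List.foldl_nil] at h this
      omega
  | append_singleton s i ih =>
    intro s' h
    induction s' using List.reverseRecOn with
    | nil =>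
      have := enc_pos s
      rw [enc_concat] at h
      simp only [enc, List.foldl_nil] at h this
      omega
    | append_singleton s' i' _ =>
      rw [enc_concat, enc_concat] at h
      have h1 := i.2
      have h2 := i'.2
      rw [ih (a₂ := s') (by omega), show i = i' from Fin.ext (by omega)]

theorem trNat_two_mul {a : ℕ} (h : 0 < a) : trNat (2 * a) = Γ'.bit0 :: trNat a := by
  obtain ⟨p, rfl⟩ : ∃ p : PosNum, (p : ℕ) = a := by
    cases hp : (a : Num) with
    | zero =>
      have := congrArg (fun x : Num => (x : ℕ)) hp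
      simp only [Num.to_of_nat] at this
      exact absurd this h.ne'
    | pos p => exact ⟨p, by rw [← Num.to_of_nat a, hp]; rfl⟩
  have h1 : (2 * (p : ℕ) : ℕ) = ((PosNum.bit0 p : PosNum) : ℕ) := by
    rw [PosNum.cast_bit0]; omega
  rw [h1, trNat, trNat, PosNum.of_to_nat, PosNum.of_to_nat]
  rfl

theorem trNat_two_mul_add_one {a : ℕ} (h : 0 < a) : trNat (2 * a + 1) = Γ'.bit1 :: trNat a := by
  obtain ⟨p, rfl⟩ : ∃ p : PosNum, (p : ℕ) = a := by
    cases hp : (a : Num) with
    | zero =>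
      have := congrArg (fun x : Num => (x : ℕ)) hp
      simp only [Num.to_of_nat] at this
      exact absurd this h.ne'
    | pos p => exact ⟨p, by rw [← Num.to_of_nat a, hp]; rfl⟩
  have h1 : (2 * (p : ℕ) + 1 : ℕ) = ((PosNum.bit1 p : PosNum) : ℕ) := by
    rw [PosNum.cast_bit1]; omega
  rw [h1, trNat, trNat, PosNum.of_to_nat, PosNum.of_to_nat]
  rfl

theorem trNat_one : trNat 1 = [Γ'.bit1] := by
  rw [trNat, Nat.cast_one]; rfl

theorem trNat_enc_concat (s : List (Fin 3)) (i : Fin 3) :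
    trNat (enc (s ++ [i])) = bits i ++ trNat (enc s) := by
  have h := enc_pos s
  rw [enc_concat]
  fin_cases i
  · rw [show 4 * enc s + _ = 2 * (2 * enc s) by simp; omega, trNat_two_mul (by omega),
      trNat_two_mul h]
    rfl
  · rw [show 4 * enc s + _ = 2 * (2 * enc s) + 1 by simp; omega,
      trNat_two_mul_add_one (by omega), trNat_two_mul h]
    rfl
  · rw [show 4 * enc s + _ = 2 * (2 * enc s + 1) by simp; omega, trNat_two_mul (by omega),
      trNat_two_mul_add_one h]
    rfl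

theorem trNat_two_pow (m : ℕ) : trNat (2 ^ m) = List.replicate m Γ'.bit0 ++ [Γ'.bit1] := by
  induction m with
  | zero => simpa using trNat_one
  | succ m ih => rw [pow_succ', trNat_two_mul (by positivity), ih, List.replicate_succ]; rfl

/-! ### the stack machine -/

inductive KK
  | tm (k : K') | st | inp | cert | hist
  deriving DecidableEq

instance : Fintype KK :=
  ⟨{.tm .main, .tm .rev, .tm .aux, .tm .stack, .st, .inp, .cert, .hist}, fun a => by
    rcases a with (_ | _ | _ | _) | _ | _ | _ | _ <;> simp⟩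

inductive GG (St : Type)
  | tm (γ : Γ') | bot | inp (i : Fin 3) | acc | load | st (s : St) | rs (s : St) (o : Option Γ')
  | rl (o : Option (Fin 3))

instance (St : Type) [Finite St] : Finite (GG St) := by
  let f : Γ' ⊕ Fin 3 ⊕ Fin 3 ⊕ St ⊕ (St × Option Γ') ⊕ Option (Fin 3) → GG St := fun x =>
    match x with
    | .inl γ => .tm γ
    | .inr (.inl i) => ![.bot, .acc, .load] i
    | .inr (.inr (.inl i)) => .inp i
    | .inr (.inr (.inr (.inl s))) => .st s
    | .inr (.inr (.inr (.inr (.inl p)))) => .rs p.1 p.2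
    | .inr (.inr (.inr (.inr (.inr o)))) => .rl o
  refine Finite.of_surjective f fun a => ?_
  cases a with
  | tm γ => exact ⟨.inl γ, rfl⟩
  | bot => exact ⟨.inr (.inl 0), rfl⟩
  | inp i => exact ⟨.inr (.inr (.inl i)), rfl⟩
  | acc => exact ⟨.inr (.inl 1), rfl⟩
  | load => exact ⟨.inr (.inl 2), rfl⟩
  | st s => exact ⟨.inr (.inr (.inr (.inl s))), rfl⟩
  | rs s o => exact ⟨.inr (.inr (.inr (.inr (.inl (s, o))))), rfl⟩
  | rl o => exact ⟨.inr (.inr (.inr (.inr (.inr o)))), rfl⟩

variable (SS : Set STM)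

abbrev St := SS × Option Γ'

abbrev Γ₀ := GG (St SS)

open Classical in
noncomputable def stl (q : STM) (v : Option Γ') : Γ₀ SS :=
  if h : q ∈ SS then GG.st (⟨q, h⟩, v) else GG.bot

def ob (o : Option Γ') : Γ₀ SS := o.elim GG.bot GG.tm

/-- what a micro step reads -/
def mu : STM → Option Γ' → Cfg KK (Γ₀ SS)
  | TM2.Stmt.peek k _ _, o => stk (.tm k) [ob SS o]
  | TM2.Stmt.pop k _ _, o => stk (.tm k) [ob SS o]
  | _, _ => nil

/-- what a micro step writes -/
noncomputable def mv : STM → Option Γ' → Option Γ' → Cfg KK (Γ₀ SS)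
  | TM2.Stmt.push k f q, v, _ => cat (stk .st [stl SS q v]) (stk (.tm k) [.tm (f v)])
  | TM2.Stmt.peek k f q, v, o => cat (stk .st [stl SS q (f v o)]) (stk (.tm k) [ob SS o])
  | TM2.Stmt.pop k f q, v, o =>
      cat (stk .st [stl SS q (f v o)]) (stk (.tm k) (o.elim [.bot] fun _ => []))
  | TM2.Stmt.load a q, v, _ => stk .st [stl SS q (a v)]
  | TM2.Stmt.branch f q₁ q₂, v, _ => stk .st [stl SS (cond (f v) q₁ q₂) v]
  | TM2.Stmt.goto f, v, _ => stk .st [stl SS (tr' (f v)) v]
  | TM2.Stmt.halt, _, _ => stk .st [.acc]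

theorem mu_other (q : STM) (o : Option Γ') {k : KK} (hk : ∀ k', k ≠ .tm k') : mu SS q o k = [] := by
  cases q <;> simp [mu, stk_ne (hk _)]

theorem mv_other (q : STM) (v o : Option Γ') {k : KK} (hk : ∀ k', k ≠ .tm k') (hk' : k ≠ .st) :
    mv SS q v o k = [] := by
  cases q <;> simp [mv, stk_ne (hk _), stk_ne hk']

noncomputable def rule (q₀ : STM) : Γ₀ SS → Option (Cfg KK (Γ₀ SS) × Cfg KK (Γ₀ SS))
  | .rs s o => some (cat (stk .st [.st s]) (mu SS s.1.1 o), mv SS s.1.1 s.2 o)
  | .rl (some i) => some (cat (stk .st [.load]) (stk .inp [.inp i]),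
      cat (stk .st [.load]) (stk (.tm .main) ((bits i).map .tm)))
  | .rl none => some (cat (stk .st [.load]) (stk .inp [.bot]), stk .st [stl SS q₀ none])
  | _ => none

theorem rule_prop (q₀ : STM) {ρ u v} (h : rule SS q₀ ρ = some (u, v)) :
    u .hist = [] ∧ u .cert = [] ∧ v .hist = [] ∧ v .cert = [] ∧ (u .inp).length ≤ 1 := by
  rcases ρ with _ | _ | _ | _ | _ | _ | ⟨s, o⟩ | (_ | i) <;>
    simp only [rule, reduceCtorEq, Option.some.injEq, Prod.mk.injEq] at h
  all_goals obtain ⟨rfl, rfl⟩ := h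
  · simp [stk, mu_other, mv_other]
  · simp [stk]
  · simp [stk]

noncomputable def mach (q₀ : STM) : Mach KK (Γ₀ SS) where
  kIn := .inp
  kCert := .cert
  kHist := .hist
  kSt := .st
  inl := .inp
  bot := .bot
  acc := .acc
  rule := rule SS q₀
  inl_inj := fun _ _ h => by simpa using h
  inl_ne_bot := by simp
  in_ne_hist := by simp
  cert_ne_in := by simp
  cert_ne_hist := by simp
  rule_hist := fun _ _ _ h => (rule_prop SS q₀ h).1
  rule_in := fun _ _ _ h => (rule_prop SS q₀ h).2.2.2.2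
  rule_cert := fun _ _ _ h => (rule_prop SS q₀ h).2.2.2.1

def S₀ (N m : ℕ) : Stk := K'.elim (trList [N, 2 ^ m]) [] [] []

/-- the initial configuration -/
def iota (m : ℕ) : Cfg KK (Γ₀ SS)
  | .tm .main => [.tm .bit1, .tm .cons] ++ (List.replicate m (.tm .bit0) ++ [.tm .bit1, .tm .cons, .bot])
  | .tm _ => [.bot]
  | .st => [.load]
  | .inp => []
  | .cert => []
  | .hist => [.bot]

theorem iota_tm (m : ℕ) (k : K') : iota SS m (.tm k) = (S₀ (enc []) m k).map .tm ++ [.bot] := by
  cases k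
  · simp [iota, S₀, enc, trNat_one, trNat_two_pow]
  all_goals rfl

theorem bwd_iota (q₀ : STM) (m : ℕ) (c : Cfg KK (Γ₀ SS)) :
    (mach SS q₀).bwd (cat (iota SS m) c) = none := rfl

def Stacks (c : Cfg KK (Γ₀ SS)) (S : Stk) : Prop :=
  ∀ k, ∃ g, c (.tm k) = (S k).map .tm ++ .bot :: g

def Run (c : Cfg KK (Γ₀ SS)) (q : STM) (v : Option Γ') (S : Stk) : Prop :=
  q ∈ SS ∧ (c .st).head? = some (stl SS q v) ∧ Stacks SS c S

def Closed : Prop := ∀ q ∈ SS, ∀ v S q' v' S', nxt q v S = some (q', v', S') → q' ∈ SS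

variable {SS}

theorem stl_of_mem {q : STM} (h : q ∈ SS) (v : Option Γ') : stl SS q v = GG.st (⟨q, h⟩, v) :=
  dif_pos h

theorem ob_eq {o : Option Γ'} {l : List Γ'} {r g : List (Γ₀ SS)}
    (h : ob SS o :: r = l.map .tm ++ .bot :: g) :
    o = l.head? ∧ o.elim [GG.bot] (fun _ => []) ++ r = l.tail.map .tm ++ .bot :: g := by
  cases l with
  | nil => cases o <;> simp_all [ob]
  | cons a l => cases o <;> simp_all [ob]

theorem run_next (hc : Closed SS) {q : STM} {v o : Option Γ'} {S : Stk} (hq : q ∈ SS)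
    {c₀ : Cfg KK (Γ₀ SS)} (h : Stacks SS (cat (mu SS q o) c₀) S) :
    (nxt q v S = none ∧ ((cat (mv SS q v o) c₀) .st).head? = some .acc) ∨
    ∃ q' v' S', nxt q v S = some (q', v', S') ∧ Run SS (cat (mv SS q v o) c₀) q' v' S' := by
  cases q with
  | halt => exact Or.inl ⟨rfl, by simp [mv]⟩
  | push k f q =>
    refine Or.inr ⟨_, _, _, rfl, hc _ hq v S _ _ _ rfl, by simp [mv], fun k' => ?_⟩
    obtain ⟨g, hg⟩ := h k'
    refine ⟨g, ?_⟩
    by_cases hk : k' = k
    · subst hk; simpa [mv, mu, stk] using hg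
    · simpa [mv, mu, stk, hk] using hg
  | peek k f q =>
    obtain ⟨g, hg⟩ := h k
    obtain ⟨rfl, -⟩ := ob_eq (o := o) (by simpa [mu] using hg)
    refine Or.inr ⟨_, _, _, rfl, hc _ hq v S _ _ _ rfl, by simp [mv], fun k' => ?_⟩
    simpa [mv, mu, stk] using h k'
  | pop k f q =>
    obtain ⟨g, hg⟩ := h k
    obtain ⟨rfl, h2⟩ := ob_eq (o := o) (by simpa [mu] using hg)
    refine Or.inr ⟨_, _, _, rfl, hc _ hq v S _ _ _ rfl, by simp [mv], fun k' => ?_⟩
    by_cases hk : k' = k
    · subst hk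
      exact ⟨g, by simpa [mv, stk] using h2⟩
    · simpa [mv, mu, stk, hk] using h k'
  | load a q =>
    refine Or.inr ⟨_, _, _, rfl, hc _ hq v S _ _ _ rfl, by simp [mv], fun k' => ?_⟩
    simpa [mv, mu, stk] using h k'
  | branch f q₁ q₂ =>
    refine Or.inr ⟨_, _, _, rfl, hc _ hq v S _ _ _ rfl, by simp [mv], fun k' => ?_⟩
    simpa [mv, mu, stk] using h k'
  | goto f =>
    refine Or.inr ⟨_, _, _, rfl, hc _ hq v S _ _ _ rfl, by simp [mv], fun k' => ?_⟩
    simpa [mv, mu, stk] using h k'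

theorem exists_mu {c : Cfg KK (Γ₀ SS)} {S : Stk} (q : STM) (h : Stacks SS c S) :
    ∃ o c₀, c = cat (mu SS q o) c₀ := by
  have key : ∀ k, ∃ o r, c (.tm k) = [ob SS o] ++ r := by
    intro k
    obtain ⟨g, hg⟩ := h k
    cases hS : S k with
    | nil => exact ⟨none, g, by simp [hg, hS, ob]⟩
    | cons a l => exact ⟨some a, _, by simp only [hg, hS, ob]; rfl⟩
  cases q with
  | peek k f q =>
    obtain ⟨o, r, hr⟩ := key k
    exact ⟨o, _, eq_cat_stk hr⟩
  | pop k f q =>
    obtain ⟨o, r, hr⟩ := key k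
    exact ⟨o, _, eq_cat_stk hr⟩
  | _ => exact ⟨none, c, by simp [mu]⟩

theorem S₀_concat (s : List (Fin 3)) (i : Fin 3) (m : ℕ) (k : K') :
    (S₀ (enc (s ++ [i])) m k).map (GG.tm (St := St SS)) =
      stk (KK.tm .main) ((bits i).map .tm) (.tm k) ++ (S₀ (enc s) m k).map .tm := by
  cases k
  · simp [S₀, trNat_enc_concat]
  all_goals rfl

/-! ### accepted inputs are halting inputs -/

variable (SS) in
def Inv (q₀ : STM) (m : ℕ) (I : List (Γ₀ SS)) (c : Cfg KK (Γ₀ SS)) : Prop :=
  (∃ s : List (Fin 3), I = s.map .inp ++ c .inp ∧ (c .st).head? = some .load ∧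
    Stacks SS c (S₀ (enc s) m)) ∨
  (∃ (s : List (Fin 3)) (t : List (Γ₀ SS)), I = s.map .inp ++ .bot :: t ∧
    ∃ q v S, Run SS c q v S ∧ (H q v S → H q₀ none (S₀ (enc s) m))) ∨
  (∃ (s : List (Fin 3)) (t : List (Γ₀ SS)), I = s.map .inp ++ .bot :: t ∧
    H q₀ none (S₀ (enc s) m))

theorem Inv.step (hc : Closed SS) {q₀ : STM} (hq₀ : q₀ ∈ SS) {m : ℕ} {I : List (Γ₀ SS)}
    {c c' : Cfg KK (Γ₀ SS)} (h : Inv SS q₀ m I c) (hs : (mach SS q₀).Step c c') :
    Inv SS q₀ m I c' := by
  obtain ⟨ρ, u, v, c₀, hρ, rfl, rfl⟩ := hs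
  change rule SS q₀ ρ = _ at hρ
  simp only [mach] at h ⊢
  rcases h with ⟨s, hI, hst, hS⟩ | ⟨s, t, hI, q, v', S, ⟨hq, hst, hS⟩, hH⟩ | h
  · rcases ρ with _ | _ | _ | _ | _ | _ | ⟨s', o⟩ | (_ | i) <;>
      simp only [rule, reduceCtorEq, Option.some.injEq, Prod.mk.injEq] at hρ
    all_goals obtain ⟨rfl, rfl⟩ := hρ
    · simp [stk] at hst
    · refine Or.inr (Or.inl ⟨s, c₀ .inp, by simpa [stk] using hI, q₀, none, _,
        ⟨hq₀, by simp [stk], fun k => ?_⟩, id⟩)
      simpa [stk] using hS k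
    · refine Or.inl ⟨s ++ [i], by simpa [stk] using hI, by simp [stk], fun k => ?_⟩
      obtain ⟨g, hg⟩ := hS k
      refine ⟨g, ?_⟩
      rw [S₀_concat, List.append_assoc, ← hg]
      simp [stk]
  · rcases ρ with _ | _ | _ | _ | _ | _ | ⟨s', o⟩ | (_ | i) <;>
      simp only [rule, reduceCtorEq, Option.some.injEq, Prod.mk.injEq] at hρ
    all_goals obtain ⟨rfl, rfl⟩ := hρ
    · obtain rfl : s' = (⟨q, hq⟩, v') := by simpa [stk, stl_of_mem hq] using hst
      have hS' : Stacks SS (cat (mu SS q o) c₀) S := fun k => by simpa [stk] using hS k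
      rcases run_next (v := v') hc hq hS' with ⟨h1, -⟩ | ⟨q', v'', S', h1, h2, h3, h4⟩
      · exact Or.inr (Or.inr ⟨s, t, hI, hH (H_of_none h1)⟩)
      · refine Or.inr (Or.inl ⟨s, t, hI, q', v'', S', ⟨h2, by simpa [stk] using h3, fun k => ?_⟩,
          fun h => hH ((H_nxt h1).2 h)⟩)
        simpa [stk] using h4 k
    · simp [stk, stl_of_mem hq] at hst
    · simp [stk, stl_of_mem hq] at hst
  · exact Or.inr (Or.inr h)

theorem of_dead (hc : Closed SS) {q₀ : STM} (hq₀ : q₀ ∈ SS) {m : ℕ} {c : Cfg KK (Γ₀ SS)}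
    (h : (mach SS q₀).Dead (cat (iota SS m) c)) :
    ∃ (s : List (Fin 3)) (t : List (Γ₀ SS)), c .inp = s.map .inp ++ .bot :: t ∧
      H q₀ none (S₀ (enc s) m) := by
  obtain ⟨c', hr, hacc⟩ := h
  have h0 : Inv SS q₀ m (c .inp) (cat (iota SS m) c) :=
    Or.inl ⟨[], rfl, rfl, fun k => ⟨c (.tm k), by simp [iota_tm]⟩⟩
  have h1 : Inv SS q₀ m (c .inp) c' := by
    clear hacc
    induction hr with
    | refl => exact h0
    | tail _ h2 ih => exact ih.step hc hq₀ h2
  simp only [mach] at hacc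
  rcases h1 with ⟨s, -, hst, -⟩ | ⟨s, t, -, q, v', S, ⟨hq, hst, -⟩, -⟩ | h
  · simp [hst] at hacc
  · simp [hst, stl_of_mem hq] at hacc
  · exact h

/-! ### halting inputs are accepted -/

variable (SS) in
def D (q₀ : STM) (c : Cfg KK (Γ₀ SS)) : Prop :=
  ∀ h, ∃ cw, (mach SS q₀).Dead (update (update c .hist h) .cert cw)

theorem D_step {q₀ : STM} {ρ u v} (hρ : rule SS q₀ ρ = some (u, v)) {c₀ : Cfg KK (Γ₀ SS)}
    (h : D SS q₀ (cat v c₀)) : D SS q₀ (cat u c₀) := by
  intro hh
  obtain ⟨cw, c', hr, hacc⟩ := h (ρ :: hh)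
  obtain ⟨h1, h2, h3, h4, -⟩ := rule_prop SS q₀ hρ
  refine ⟨ρ :: cw, c', Relation.ReflTransGen.head
    ⟨ρ, u, v, update (update c₀ .hist hh) .cert cw, hρ, ?_, ?_⟩ hr, hacc⟩
  · funext k
    cases k <;> simp [mach, stk, h1, h2]
  · funext k
    cases k <;> simp [mach, stk, h3, h4]

theorem D_of_MH (hc : Closed SS) {q₀ q : STM} {v : Option Γ'} {S : Stk} (h : MH q v S) :
    ∀ c, Run SS c q v S → D SS q₀ c := by
  have key : ∀ (q : STM) v S c, Run SS c q v S → ∃ o c₀, Stacks SS (cat (mu SS q o) c₀) S ∧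
      (D SS q₀ (cat (mv SS q v o) c₀) → D SS q₀ c) := by
    rintro q v S c ⟨hq, hst, hS⟩
    obtain ⟨r, hr⟩ : ∃ r, c .st = [GG.st (⟨q, hq⟩, v)] ++ r := by
      cases hc : c .st with
      | nil => simp [hc] at hst
      | cons a r => exact ⟨r, by simpa [hc, stl_of_mem hq] using hst⟩
    have hS' : Stacks SS (update c .st r) S := fun k => by simpa using hS k
    obtain ⟨o, c₀, h0⟩ := exists_mu q hS'
    refine ⟨o, c₀, h0 ▸ hS', fun hD => ?_⟩
    rw [eq_cat_stk hr, h0, ← cat_assoc]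
    exact D_step (ρ := .rs (⟨q, hq⟩, v) o) rfl hD
  induction h with
  | @halt q v S h =>
    intro c hrun
    obtain ⟨o, c₀, h1, h2⟩ := key _ _ _ _ hrun
    rcases run_next (v := v) hc hrun.1 h1 with ⟨-, h3⟩ | ⟨q', v', S', h3, -⟩
    · exact h2 fun hh => ⟨[], _, .refl, by simpa [mach] using h3⟩
    · simp [h] at h3
  | @step q v S q' v' S' h _ ih =>
    intro c hrun
    obtain ⟨o, c₀, h1, h2⟩ := key _ _ _ _ hrun
    rcases run_next (v := v) hc hrun.1 h1 with ⟨h3, -⟩ | ⟨q'', v'', S'', h3, h4⟩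
    · simp [h] at h3
    · simp only [h, Option.some.injEq, Prod.mk.injEq] at h3
      obtain ⟨rfl, rfl, rfl⟩ := h3
      exact h2 (ih _ h4)

theorem D_load (hc : Closed SS) {q₀ : STM} (hq₀ : q₀ ∈ SS) {m : ℕ} (t : List (Fin 3)) :
    ∀ (s : List (Fin 3)) (c : Cfg KK (Γ₀ SS)), H q₀ none (S₀ (enc (s ++ t)) m) →
      c .inp = t.map .inp ++ [.bot] → c .st = [.load] → Stacks SS c (S₀ (enc s) m) →
      D SS q₀ c := by
  induction t with
  | nil =>
    intro s c hH h1 h2 h3
    have : c = cat (cat (stk .st [.load]) (stk .inp [.bot])) (update (update c .st []) .inp []) := by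
      funext k
      cases k <;> simp [stk, h1, h2]
    rw [this]
    refine D_step (ρ := .rl none) rfl (D_of_MH hc (MH_of_H hH) _ ⟨hq₀, by simp [stk], fun k => ?_⟩)
    simpa [stk] using h3 k
  | cons i t ih =>
    intro s c hH h1 h2 h3
    have : c = cat (cat (stk .st [.load]) (stk .inp [.inp i]))
        (update (update c .st []) .inp (t.map .inp ++ [.bot])) := by
      funext k
      cases k <;> simp [stk, h1, h2]
    rw [this]
    refine D_step (ρ := .rl (some i)) rfl (ih (s ++ [i]) _ (by simpa using hH) (by simp [stk])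
      (by simp [stk]) fun k => ?_)
    obtain ⟨g, hg⟩ := h3 k
    refine ⟨g, ?_⟩
    rw [S₀_concat, List.append_assoc, ← hg]
    simp [stk]

theorem dead_of_H (hc : Closed SS) {q₀ : STM} (hq₀ : q₀ ∈ SS) {m : ℕ} {s : List (Fin 3)}
    (h : H q₀ none (S₀ (enc s) m)) :
    ∃ c : Cfg KK (Γ₀ SS), c .inp = s.map .inp ++ [.bot] ∧
      (mach SS q₀).Dead (cat (iota SS m) c) := by
  obtain ⟨cw, hcw⟩ := D_load hc hq₀ s [] (cat (iota SS m) (stk .inp (s.map .inp ++ [.bot]))) h
    (by simp [iota]) (by simp [iota, stk]) (fun k => ⟨[], by simp [iota_tm, stk]⟩) [.bot]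
  refine ⟨cat (stk .inp (s.map .inp ++ [.bot])) (stk .cert cw), by simp [stk], ?_⟩
  have : cat (iota SS m) (cat (stk .inp (s.map .inp ++ [.bot])) (stk .cert cw)) =
      update (update (cat (iota SS m) (stk .inp (s.map .inp ++ [.bot]))) .hist [.bot]) .cert cw := by
    funext k
    cases k <;> simp [stk, iota]
  rw [this]
  exact hcw

/-! ### the universal machine -/

theorem exists_universal : ∃ (SS : Set STM) (q₀ : STM), SS.Finite ∧ Closed SS ∧ q₀ ∈ SS ∧
    ∀ N m, H q₀ none (S₀ N m) ↔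
      (Nat.Partrec.Code.eval (Denumerable.ofNat Nat.Partrec.Code m) N).Dom := by
  classical
  let u : ℕ → ℕ →. ℕ := fun N M => (Nat.rfind fun m => Part.some (decide (2 ^ m = M))).bind
    fun m => Nat.Partrec.Code.eval (Denumerable.ofNat Nat.Partrec.Code m) N
  have hu : Partrec₂ u := by
    have h1 : Primrec₂ fun (p : ℕ × ℕ) (m : ℕ) => decide (2 ^ m = p.2) :=
      (Primrec.eq.comp ((Primrec₂.unpaired'.1 Nat.Primrec.pow).comp (Primrec.const 2) Primrec.snd)
        (Primrec.snd.comp Primrec.fst)).decide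
    exact (Partrec.rfind h1.to_comp.partrec₂).bind (Nat.Partrec.Code.eval_part.comp
      ((Computable.ofNat _).comp Computable.snd) (Computable.fst.comp Computable.fst)).to₂
  have hu' : ∀ N m, u N (2 ^ m) =
      Nat.Partrec.Code.eval (Denumerable.ofNat Nat.Partrec.Code m) N := by
    intro N m
    have : (Nat.rfind fun m' => Part.some (decide (2 ^ m' = 2 ^ m))) = Part.some m := by
      refine Part.eq_some_iff.2 (Nat.mem_rfind.2 ⟨by simp, fun {m'} hm' => ?_⟩)
      have := Nat.pow_lt_pow_right (a := 2) (by norm_num) hm'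
      simp [this.ne]
    simp only [u, this, Part.bind_some]
  obtain ⟨U, hU⟩ := ToPartrec.Code.exists_code (Nat.Partrec'.part_iff₂.2 hu)
  let l₀ := trNormal U Cont'.halt
  let L := codeSupp U Cont'.halt
  have hsupp := tr_supports U Cont'.halt
  let SS : Finset STM := L.biUnion fun l => TM2.stmts₁ (tr' l)
  have hself : ∀ l ∈ L, tr' l ∈ SS := fun l hl => Finset.mem_biUnion.2 ⟨l, hl, TM2.stmts₁_self⟩
  refine ⟨SS, tr' l₀, SS.finite_toSet, ?_, hself _ hsupp.1, fun N m => ?_⟩
  · intro q hq v S q' v' S' h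
    obtain ⟨l, hl, hql⟩ := Finset.mem_biUnion.1 hq
    have hsub : q' ∈ TM2.stmts₁ q → q' ∈ (SS : Set STM) := fun h' =>
      Finset.mem_biUnion.2 ⟨l, hl, TM2.stmts₁_trans hql h'⟩
    have hsq : TM2.SupportsStmt L q := TM2.stmts₁_supportsStmt_mono hql (hsupp.2 l hl)
    cases q with
    | halt => simp [nxt] at h
    | goto f =>
      simp only [nxt, Option.some.injEq, Prod.mk.injEq] at h
      rw [← h.1]
      exact hself _ (hsq v)
    | branch f q₁ q₂ =>
      simp only [nxt, Option.some.injEq, Prod.mk.injEq] at h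
      apply hsub
      rw [← h.1]
      cases f v <;> simp [TM2.stmts₁, TM2.stmts₁_self]
    | _ =>
      simp only [nxt, Option.some.injEq, Prod.mk.injEq] at h
      apply hsub
      rw [← h.1]
      simp [TM2.stmts₁, TM2.stmts₁_self]
  · have h1 := tr_eval U [N, 2 ^ m]
    have h2 := hU ⟨[N, 2 ^ m], rfl⟩
    have h3 : StateTransition.eval (TM2.step tr') (init U [N, 2 ^ m]) =
        StateTransition.eval (TM2.step tr') (TM2.stepAux (tr' l₀) none (S₀ N m)) := eval_step rfl
    rw [H, ← h3, ← hu']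
    change (StateTransition.eval (TM2.step tr) (init U [N, 2 ^ m])).Dom ↔ _
    rw [h1, h2]
    rfl

end TM

end Pool.Agent.Lib.MP_4d37d6_al
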