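import Pool.Agent.Lib.MP_4d37d6_al.Unital

/-!
Passing between the unital and the non-unital conventions.
-/

set_option autoImplicit false

namespace Pool.Agent.Lib.MP_4d37d6_al

open Function

universe u v

abbrev FreeNU (F : Type u) [Field F] (m : ℕ) := MonoidAlgebra F (FreeSemigroup (Fin m))

theorem exists_quot {F : Type u} [Field F] {U : Type v} [Ring U] [Algebra F U]
    (J : TwoSidedIdeal U) :
    ∃ (W : Type v) (_ : Ring W) (_ : Algebra F W) (q : U →ₐ[F] W), ∀ z, q z = 0 ↔ z ∈ J :=
  ⟨J.ringCon.Quotient, inferInstance, inferInstance, RingCon.mkₐ F J.ringCon, fun z => by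
    conv_rhs => rw [← TwoSidedIdeal.ker_ringCon_mk' J, TwoSidedIdeal.mem_ker]
    rfl⟩

/-- a finitely presented unital algebra is finitely presented as a non-unital algebra -/
theorem finPres_nonunital {F : Type u} [Field F] {S : Type v} [Ring S] [Algebra F S] {m : ℕ}
    (π : FreeAlgebra F (Fin m) →ₐ[F] S) (R : Finset (FreeAlgebra F (Fin m)))
    (hs : Surjective π)
    (hk : TwoSidedIdeal.ker π = TwoSidedIdeal.span (R : Set (FreeAlgebra F (Fin m)))) :
    ∃ (φ : FreeNU F (m + 1) →ₙₐ[F] S) (R' : Finset (FreeNU F (m + 1))), Surjective φ ∧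
      ∀ x, φ x = 0 ↔ ∀ I : TwoSidedIdeal (FreeNU F (m + 1)),
        (∀ (c : F) (y : FreeNU F (m + 1)), y ∈ I → c • y ∈ I) → (∀ r ∈ R', r ∈ I) → x ∈ I := by
  classical
  let x : Fin (m + 1) → FreeNU F (m + 1) := fun j => MonoidAlgebra.single (FreeSemigroup.of j) 1
  let σ : FreeNU F (m + 1) →ₙₐ[F] FreeAlgebra F (Fin m) :=
    MonoidAlgebra.liftMagma F (FreeSemigroup.lift (Fin.cases 1 (FreeAlgebra.ι F)))
  have hσ0 : σ (x 0) = 1 := by simp [σ, x]
  have hσs : ∀ i, σ (x (Fin.succ i)) = FreeAlgebra.ι F i := fun i => by simp [σ, x]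
  let Θ : FreeAlgebra F (Fin m) →ₐ[F] Unitization F (FreeNU F (m + 1)) :=
    FreeAlgebra.lift F fun i => (x (Fin.succ i) : Unitization F (FreeNU F (m + 1)))
  let θ : FreeAlgebra F (Fin m) → FreeNU F (m + 1) := fun p =>
    ((x 0 : Unitization F (FreeNU F (m + 1))) * Θ p).snd
  have hθ : ∀ p, (θ p : Unitization F (FreeNU F (m + 1))) = x 0 * Θ p := fun p => by
    have := Unitization.inl_fst_add_inr_snd_eq ((x 0 : Unitization F (FreeNU F (m + 1))) * Θ p)
    rwa [Unitization.fst_mul, Unitization.fst_inr, zero_mul, Unitization.inl_zero, zero_add] at this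
  have hσθ : ∀ p, σ (θ p) = p := fun p => by
    have h1 : (Unitization.lift σ).comp Θ = AlgHom.id F _ := by
      ext i
      simp [Θ, hσs]
    have h2 : Unitization.lift σ (θ p) = σ (θ p) := by simp
    rw [← h2, hθ, map_mul]
    have h3 : Unitization.lift σ (x 0) = 1 := by simp [hσ0]
    rw [h3, one_mul]
    exact AlgHom.congr_fun h1 p
  refine ⟨π.toNonUnitalAlgHom.comp σ,
    (Finset.univ.image fun j => x 0 * x j - x j) ∪ (Finset.univ.image fun j => x j * x 0 - x j) ∪
      R.image θ, hs.comp fun p => ⟨θ p, hσθ p⟩, fun y => ⟨fun hy J hJ hR => ?_, fun h => ?_⟩⟩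
  · have hl : ∀ z, x 0 * z - z ∈ J := by
      intro z
      induction z using MonoidAlgebra.induction_linear with
      | zero => simp
      | add z z' h1 h2 =>
        have : x 0 * (z + z') - (z + z') = (x 0 * z - z) + (x 0 * z' - z') := by
          rw [mul_add]; abel
        rw [this]
        exact J.add_mem h1 h2
      | single w c =>
        have h1 : x 0 * MonoidAlgebra.single w 1 - MonoidAlgebra.single w 1 ∈ J := by
          induction w using FreeSemigroup.recOnMul with
          | ih1 j => exact hR _ (by simp [x])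
          | ih2 j w h1 _ =>
            have := J.mul_mem_right _ (MonoidAlgebra.single w 1) h1
            rwa [sub_mul, mul_assoc, MonoidAlgebra.single_mul_single, one_mul] at this
        have := hJ c _ h1
        rwa [smul_sub, ← mul_smul_comm, MonoidAlgebra.smul_single, smul_eq_mul, mul_one] at this
    have hr : ∀ z, z * x 0 - z ∈ J := by
      intro z
      induction z using MonoidAlgebra.induction_linear with
      | zero => simp
      | add z z' h1 h2 =>
        have : (z + z') * x 0 - (z + z') = (z * x 0 - z) + (z' * x 0 - z') := by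
          rw [add_mul]; abel
        rw [this]
        exact J.add_mem h1 h2
      | single w c =>
        have h1 : MonoidAlgebra.single w 1 * x 0 - MonoidAlgebra.single w 1 ∈ J := by
          induction w using FreeSemigroup.recOnMul with
          | ih1 j => exact hR _ (by simp [x])
          | ih2 j w _ h1 =>
            have := J.mul_mem_left (MonoidAlgebra.single (FreeSemigroup.of j) 1) _ h1
            rwa [mul_sub, ← mul_assoc, MonoidAlgebra.single_mul_single, one_mul] at this
        have := hJ c _ h1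
        rwa [smul_sub, ← smul_mul_assoc, MonoidAlgebra.smul_single, smul_eq_mul, mul_one] at this
    let J' : TwoSidedIdeal (Unitization F (FreeNU F (m + 1))) := TwoSidedIdeal.mk'
      {u | u.fst = 0 ∧ u.snd ∈ J} ⟨rfl, J.zero_mem⟩
      (fun h1 h2 => ⟨by simp [h1.1, h2.1], J.add_mem h1.2 h2.2⟩)
      (fun h1 => ⟨by simp [h1.1], J.neg_mem h1.2⟩)
      (fun {u w} h1 => ⟨by simp [h1.1], by
        rw [Unitization.snd_mul, h1.1, zero_smul, add_zero]
        exact J.add_mem (hJ _ _ h1.2) (J.mul_mem_left _ _ h1.2)⟩)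
      (fun {u w} h1 => ⟨by simp [h1.1], by
        rw [Unitization.snd_mul, h1.1, zero_smul, zero_add]
        exact J.add_mem (hJ _ _ h1.2) (J.mul_mem_right _ _ h1.2)⟩)
    obtain ⟨W, _, _, q, hq'⟩ := exists_quot (F := F) J'
    have hq : ∀ z : FreeNU F (m + 1), q z = 0 ↔ z ∈ J := fun z => by
      rw [hq', TwoSidedIdeal.mem_mk']
      simp
    have hql : ∀ z : FreeNU F (m + 1), q (x 0) * q z = q z := fun z => by
      rw [← sub_eq_zero, ← map_mul, ← map_sub, ← Unitization.inr_mul, ← Unitization.inr_sub, hq]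
      exact hl z
    have hqr : ∀ z : FreeNU F (m + 1), q z * q (x 0) = q z := fun z => by
      rw [← sub_eq_zero, ← map_mul, ← map_sub, ← Unitization.inr_mul, ← Unitization.inr_sub, hq]
      exact hr z
    let τ : FreeAlgebra F (Fin m) →ₙₐ[F] W :=
      { toFun := fun p => q (x 0) * q (Θ p)
        map_smul' := fun c p => by simp
        map_zero' := by simp
        map_add' := fun p p' => by simp [mul_add]
        map_mul' := fun p p' => by
          rw [map_mul, map_mul, ← mul_assoc, ← mul_assoc, ← map_mul q _ (Θ p), ← hθ, hqr] }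
    have hτσ : τ.comp σ = q.toNonUnitalAlgHom.comp (Unitization.inrNonUnitalAlgHom F _) := by
      refine MonoidAlgebra.nonUnitalAlgHom_ext' F (FreeSemigroup.hom_ext (funext fun j => ?_))
      change q (x 0) * q (Θ (σ (x j))) = q (x j)
      refine Fin.cases ?_ (fun i => ?_) j
      · rw [hσ0, map_one, map_one, mul_one]
      · rw [hσs, ← hql (x i.succ)]
        simp [Θ]
    have hI : TwoSidedIdeal.span (R : Set (FreeAlgebra F (Fin m))) ≤ TwoSidedIdeal.ker τ := by
      rw [TwoSidedIdeal.span_le]
      intro r hr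
      rw [SetLike.mem_coe, TwoSidedIdeal.mem_ker]
      change q (x 0) * q (Θ r) = 0
      rw [← map_mul, ← hθ, hq]
      exact hR _ (Finset.mem_union_right _ (Finset.mem_image_of_mem _ hr))
    have h1 : σ y ∈ TwoSidedIdeal.ker τ := hI (hk ▸ (TwoSidedIdeal.mem_ker π).2 hy)
    rw [TwoSidedIdeal.mem_ker] at h1
    exact (hq y).1 ((DFunLike.congr_fun hτσ y).symm.trans h1)
  · rw [← TwoSidedIdeal.mem_ker]
    refine h _ (fun c y hy => ?_) fun r hr => ?_
    · rw [TwoSidedIdeal.mem_ker] at hy ⊢
      rw [map_smul, hy, smul_zero]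
    · rw [TwoSidedIdeal.mem_ker]
      change π (σ r) = 0
      simp only [Finset.mem_union, Finset.mem_image, Finset.mem_univ, true_and] at hr
      rcases hr with (⟨j, rfl⟩ | ⟨j, rfl⟩) | ⟨r, hr, rfl⟩
      · rw [map_sub, map_mul, hσ0, one_mul, sub_self, map_zero]
      · rw [map_sub, map_mul, hσ0, mul_one, sub_self, map_zero]
      · rw [hσθ, ← TwoSidedIdeal.mem_ker, hk]
        exact TwoSidedIdeal.subset_span hr

variable {n : ℕ}

def mon {A : Type v} [Mul A] (a : Fin n → A) (w : Fin n × List (Fin n)) : A :=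
  w.2.foldl (fun x j => x * a j) (a w.1)

def toL (w : Fin n × List (Fin n)) : List (Fin n) := w.1 :: w.2

theorem toL_injective : Injective (toL (n := n)) := fun w w' h => by
  simp only [toL, List.cons.injEq] at h
  exact Prod.ext h.1 h.2

theorem map_mon {A : Type v} {T : Type*} [Mul A] [Ring T] {Φ : Type*} [FunLike Φ A T]
    [MulHomClass Φ A T] (ψ : Φ) (a : Fin n → A) (w : Fin n × List (Fin n)) :
    ψ (mon a w) = ev (ψ ∘ a) (toL w) := by
  have : ∀ (l : List (Fin n)) (x : A), ψ (l.foldl (fun x j => x * a j) x) = ψ x * ev (ψ ∘ a) l := by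
    intro l
    induction l with
    | nil => simp
    | cons j l ih => intro x; simp [ih, mul_assoc]
  rw [mon, this, toL, ev_cons]
  rfl

theorem exists_comb {F : Type u} [Field F] (hF : ∀ K : Subfield F, K = ⊤) {T : Type*} [Ring T]
    [Algebra F T] (a : Fin n → T) (B : Set (List (Fin n))) {y : T}
    (hy : y ∈ Submodule.span F (ev a '' B)) :
    ∃ L : Comb n, (∀ t ∈ L, t.2 ∈ B) ∧ y = combVal F a L := by
  induction hy using Submodule.span_induction with
  | mem y hy =>
    obtain ⟨b, hb, rfl⟩ := hy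
    exact ⟨[((1, 1), b)], by simpa using hb, by simp [combVal]⟩
  | zero => exact ⟨[], by simp, by simp [combVal]⟩
  | add y z _ _ h1 h2 =>
    obtain ⟨L, h1, rfl⟩ := h1
    obtain ⟨L', h2, rfl⟩ := h2
    refine ⟨L ++ L', fun t ht => ?_, by simp [combVal]⟩
    rcases List.mem_append.1 ht with h | h
    exacts [h1 t h, h2 t h]
  | smul c y _ h1 =>
    obtain ⟨L, h1, rfl⟩ := h1
    obtain ⟨z, d, hd, hc⟩ := exists_frac hF c
    refine ⟨L.map fun t => ((z * t.1.1, d * t.1.2), t.2), fun t ht => ?_, ?_⟩
    · obtain ⟨s, hs, rfl⟩ := List.mem_map.1 ht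
      exact h1 s hs
    · have hc' : c = (z : F) / d := by rw [← hc]; field_simp
      simp only [combVal, List.map_map, List.smul_sum]
      congr 1
      refine List.map_congr_left fun t _ => ?_
      simp only [comp_apply, smul_smul, Int.cast_mul, Nat.cast_mul, hc', div_mul_div_comm]

theorem pr_toL : Primrec (toL (n := n)) := Primrec.list_cons

def onCons {σ : Type} (d : σ) (g : Fin n × List (Fin n) → σ) : List (Fin n) → σ
  | [] => d
  | i :: l => g (i, l)

theorem comp_onCons {σ : Type} [Primcodable σ] (d : σ) {g : Fin n × List (Fin n) → σ}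
    (hg : Computable g) : Computable (onCons d g) := by
  have h1 : Primrec fun l : List (Fin n) => l.head?.map fun i => (i, l.tail) :=
    Primrec.option_map Primrec.list_head?
      (Primrec.snd.pair (Primrec.list_tail.comp Primrec.fst)).to₂
  refine (Computable.option_casesOn h1.to_comp (Computable.const d)
    (hg.comp Computable.snd).to₂).of_eq fun l => ?_
  cases l <;> rfl

/-- The common part of the two cases: `ψ` embeds `A` into a unital algebra `T`, which is spanned by
the image of `A` and the identity. -/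
theorem embed_of_hom {F : Type u} [Field F] (hF : ∀ K : Subfield F, K = ⊤) {A : Type v}
    [NonUnitalRing A] [Module F A] {T : Type*} [Ring T] [Algebra F T] [Nontrivial T]
    (ψ : A →ₙₐ[F] T) (hψ : Injective ψ) (a : Fin n → A) (B : Set (Fin n × List (Fin n)))
    (hB : ComputablePred fun w => w ∈ B) (hli : LinearIndepOn F (mon a) B)
    (hsp : Submodule.span F (mon a '' B) = ⊤)
    (f : Fin n × List (Fin n) → List ((ℤ × ℕ) × (Fin n × List (Fin n)))) (hf : Computable f)
    (hfv : ∀ w, (∀ t ∈ f w, t.2 ∈ B) ∧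
      mon a w = ((f w).map fun t => ((t.1.1 : F) / (t.1.2 : F)) • mon a t.2).sum)
    (hT : ∀ t : T, ∃ (c : F) (α : A), t = c • (1 : T) + ψ α) :
    ∃ (m : ℕ) (R : Finset (FreeAlgebra F (Fin m))),
      IsSimpleRing (TwoSidedIdeal.span (R : Set (FreeAlgebra F (Fin m)))).ringCon.Quotient ∧
      ∃ φ : T →ₐ[F] (TwoSidedIdeal.span (R : Set (FreeAlgebra F (Fin m)))).ringCon.Quotient,
        Injective φ := by
  classical
  let ψl : A →ₗ[F] T := { toFun := ψ, map_add' := map_add ψ, map_smul' := map_smul ψ }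
  have hev : ev (ψ ∘ a) ∘ toL = ψl ∘ mon a := funext fun w => (map_mon ψ a w).symm
  have hli₁ : LinearIndepOn F (ev (ψ ∘ a)) (toL '' B) := by
    refine LinearIndepOn.image_of_comp _ _ ?_
    rw [hev]
    exact hli.map_injOn ψl hψ.injOn
  have hsp₁ : ∀ α, ψ α ∈ Submodule.span F (ev (ψ ∘ a) '' (toL '' B)) := fun α => by
    rw [← Set.image_comp, hev, Set.image_comp, ← Submodule.map_span, hsp]
    exact ⟨α, trivial, rfl⟩
  have hcB : ∀ d : Bool, ComputablePred fun l => onCons d (fun w => decide (w ∈ B)) l = true :=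
    fun d => Computable.computablePred ((comp_onCons d hB.decide).of_eq fun l => by simp)
  have hmem : ∀ (i : Fin n) (l : List (Fin n)), i :: l ∈ toL '' B ↔ (i, l) ∈ B := fun i l =>
    toL_injective.mem_set_image (a := (i, l))
  have hnil : [] ∉ toL '' B := by
    rintro ⟨w, -, h⟩
    exact List.cons_ne_nil _ _ h
  obtain ⟨B', hB', hsub, hli', h1⟩ : ∃ B' : Set (List (Fin n)), (ComputablePred fun l => l ∈ B') ∧
      toL '' B ⊆ B' ∧ LinearIndepOn F (ev (ψ ∘ a)) B' ∧
        (1 : T) ∈ Submodule.span F (ev (ψ ∘ a) '' B') := by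
    by_cases h : (1 : T) ∈ Submodule.span F (ev (ψ ∘ a) '' (toL '' B))
    · refine ⟨_, (hcB false).of_eq fun l => ?_, subset_rfl, hli₁, h⟩
      cases l with
      | nil => simpa [onCons] using hnil
      | cons i l => simp only [onCons, hmem, decide_eq_true_eq]
    · refine ⟨insert [] (toL '' B), (hcB true).of_eq fun l => ?_, Set.subset_insert _ _,
        hli₁.insert h, Submodule.subset_span ⟨[], Set.mem_insert _ _, rfl⟩⟩
      cases l with
      | nil => simp [onCons]
      | cons i l =>
        simp only [onCons, Set.mem_insert_iff, hmem, decide_eq_true_eq, reduceCtorEq, false_or]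
  obtain ⟨L₀, hL₀, hL₀v⟩ := exists_comb hF _ _ h1
  have hc1 : Computable₂ fun (_ : Fin n × List (Fin n)) (t : (ℤ × ℕ) × (Fin n × List (Fin n))) =>
      (t.1, toL t.2) :=
    ((Primrec.fst.comp Primrec.snd).pair (pr_toL.comp (Primrec.snd.comp Primrec.snd))).to_comp
  have hc2 : Computable fun w => (f w).map fun t => (t.1, toL t.2) := comp_list_map hf hc1
  refine unital_main hF (ψ ∘ a) B' hB' hli' ?_
    (onCons L₀ fun w => (f w).map fun t => (t.1, toL t.2))
    (comp_onCons _ hc2) (fun w => ?_) fun w => ?_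
  · rw [eq_top_iff]
    intro t _
    obtain ⟨c, α, rfl⟩ := hT t
    exact add_mem (Submodule.smul_mem _ _ h1)
      (Submodule.span_mono (Set.image_mono hsub) (hsp₁ α))
  · cases w with
    | nil => exact hL₀
    | cons i l =>
      intro t ht
      obtain ⟨s, hs, rfl⟩ := List.mem_map.1 ht
      exact hsub ⟨s.2, (hfv _).1 s hs, rfl⟩
  · cases w with
    | nil => exact hL₀v
    | cons i l =>
      have := congrArg ψl (hfv (i, l)).2
      rw [map_list_sum, List.map_map] at this
      refine (congrFun hev (i, l)).trans (this.trans ?_)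
      simp only [combVal, onCons, List.map_map]
      congr 1
      refine List.map_congr_left fun t _ => ?_
      simp only [comp_apply, map_smul]
      exact congrArg _ (congrFun hev t.2).symm

theorem nonunital_main {F : Type u} [Field F] (hF : ∀ K : Subfield F, K = ⊤) {A : Type v}
    [NonUnitalRing A] [Module F A] [IsScalarTower F A A] [SMulCommClass F A A]
    (a : Fin n → A) (B : Set (Fin n × List (Fin n)))
    (hB : ComputablePred fun w => w ∈ B) (hli : LinearIndepOn F (mon a) B)
    (hsp : Submodule.span F (mon a '' B) = ⊤)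
    (f : Fin n × List (Fin n) → List ((ℤ × ℕ) × (Fin n × List (Fin n)))) (hf : Computable f)
    (hfv : ∀ w, (∀ t ∈ f w, t.2 ∈ B) ∧
      mon a w = ((f w).map fun t => ((t.1.1 : F) / (t.1.2 : F)) • mon a t.2).sum) :
    ∃ (m : ℕ) (R : Finset (FreeAlgebra F (Fin m))),
      IsSimpleRing (TwoSidedIdeal.span (R : Set (FreeAlgebra F (Fin m)))).ringCon.Quotient ∧
      ∃ φ : A →ₙₐ[F] (TwoSidedIdeal.span (R : Set (FreeAlgebra F (Fin m)))).ringCon.Quotient,
        Injective φ ∧ ∀ e : A, e ≠ 0 → (∀ x, e * x = x ∧ x * e = x) → φ e = 1 := by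
  by_cases h : ∃ e : A, e ≠ 0 ∧ ∀ x, e * x = x ∧ x * e = x
  · obtain ⟨e, he0, he⟩ := h
    let _ : Ring A := { ‹NonUnitalRing A› with
      one := e
      one_mul := fun x => (he x).1
      mul_one := fun x => (he x).2 }
    let _ : Algebra F A := Algebra.ofModule smul_mul_assoc mul_smul_comm
    have : Nontrivial A := ⟨e, 0, he0⟩
    obtain ⟨m, R, hS, φ, hφ⟩ := embed_of_hom hF (T := A) (NonUnitalAlgHom.id F A) injective_id a B
      hB hli hsp f hf hfv fun t => ⟨0, t, by simp⟩
    refine ⟨m, R, hS, φ.toNonUnitalAlgHom, hφ, fun e' _ he' => ?_⟩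
    have : e' = 1 := ((he e').1.symm.trans (he' e).2)
    rw [this]
    exact map_one φ
  · obtain ⟨m, R, hS, φ, hφ⟩ := embed_of_hom hF (Unitization.inrNonUnitalAlgHom F A)
      Unitization.inr_injective a B hB hli hsp f hf hfv fun t => ⟨t.fst, t.snd, by
        ext <;> simp⟩
    exact ⟨m, R, hS, φ.toNonUnitalAlgHom.comp (Unitization.inrNonUnitalAlgHom F A),
      hφ.comp Unitization.inr_injective, fun e he0 he => (h ⟨e, he0, he⟩).elim⟩

end Pool.Agent.Lib.MP_4d37d6_al
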