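import Pool.Agent.Lib.MP_4d37d6_al.Compat

/-!
The finitely presented algebra.
-/

set_option autoImplicit false

namespace Pool.Agent.Lib.MP_4d37d6_al

open Function

variable {K Γ : Type} {n : ℕ}

namespace Setup

variable [DecidableEq K] [Fintype K] (S : Setup K Γ n) (ι : Cfg K Γ)

def eqn {α : Type} (l r : List α) : Terms α := [(false, l), (true, r)]

theorem poly_eqn {α : Type} {T : Type*} [Ring T] (g : α → T) (l r : List α) :
    poly g (eqn l r) = 0 ↔ ev g l = ev g r := by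
  simp [eqn, add_neg_eq_zero]

open Classical in
noncomputable def r1 (p : (K × Γ) × (K × Γ)) : Terms (Gen K Γ n) :=
  if p.1.1 ≠ p.2.1 then eqn [gC p.1, gC p.2] [gC p.2, gC p.1] else []

def r2 (p : (K × Γ) × Fin n) : Terms (Gen K Γ n) := eqn [gC p.1, gA p.2] [gA p.2, gC p.1]

noncomputable def r3 (ρ : Γ) : Terms (Gen K Γ n) :=
  match S.rule ρ with
  | some (u, v) => eqn (gX .E :: flatC (cat (stk S.kCert [ρ]) u))
      (gX .E :: flatC (cat (stk S.kHist [ρ]) v))
  | none => []

open Classical in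
noncomputable def r4 (γ : Γ) : Terms (Gen K Γ n) :=
  if γ ≠ S.inl 2 ∧ γ ≠ S.bot then eqn [gX .e1, gC (S.kIn, γ)] [gX .e1] else []

noncomputable def r5 : Tok K Γ n → Terms (Gen K Γ n)
  | none => [(false, gX .e2 :: flatC (S.inW (S.tk none))), (false, [gX .e2])]
  | some σ => eqn (gX .e2 :: flatC (S.inW (S.tk (some σ)))) [σ, gX .e2]

def r6 (l : K × Γ) : Terms (Gen K Γ n) := eqn [gX .e3, gC l] [gX .e3]

noncomputable def r7 : Fin 7 → Terms (Gen K Γ n) :=
  ![[(false, [gX .E, gC (S.kSt, S.acc)])],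
    eqn (gX .E :: flatC ι) [gX .e1],
    [(false, [gX .e1, gC (S.kIn, S.inl 2)]), (true, [gX .e1]), (true, [gX .e2])],
    [(false, [gX .e1, gC (S.kIn, S.bot)])],
    eqn [gX .e2, gC (S.kIn, S.inl 2)] [gX .e3],
    [(false, [gX .e2, gC (S.kIn, S.bot)])],
    eqn [gX .e3, gX .w] []]

/-- the defining relations -/
def relSet : Set (Terms (Gen K Γ n)) :=
  Set.range r1 ∪ Set.range r2 ∪ Set.range S.r3 ∪ Set.range S.r4 ∪ Set.range S.r5 ∪ Set.range r6 ∪
    Set.range (S.r7 ι)

theorem relSet_finite [Finite Γ] : (S.relSet ι).Finite := by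
  unfold relSet
  simp only [Set.finite_union]
  refine ⟨⟨⟨⟨⟨⟨?_, ?_⟩, ?_⟩, ?_⟩, ?_⟩, ?_⟩, ?_⟩ <;> exact Set.finite_range _

theorem rels_iff {T : Type*} [Ring T] (g : Gen K Γ n → T) :
    S.Rels ι g ↔ ∀ t ∈ S.relSet ι, poly g t = 0 := by
  simp only [relSet, Set.mem_union, or_imp, forall_and, Set.forall_mem_range]
  constructor
  · intro h
    refine ⟨⟨⟨⟨⟨⟨?_, ?_⟩, ?_⟩, ?_⟩, ?_⟩, ?_⟩, ?_⟩
    · intro p
      unfold r1
      split_ifs with hp
      · simpa [poly_eqn] using (h.comm _ _ hp).eq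
      · rfl
    · intro p
      simpa [r2, poly_eqn] using (h.commA p.1 p.2).eq
    · intro ρ
      unfold r3
      split
      · rename_i u v hρ
        simpa [poly_eqn, evC] using h.rule ρ u v hρ
      · rfl
    · intro γ
      unfold r4
      split_ifs with hγ
      · simpa [poly_eqn] using h.e1skip γ hγ.1 hγ.2
      · rfl
    · rintro (_ | σ)
      · have := h.e2tok none
        simp only [tokv, neg_mul, one_mul, evC] at this
        simp [r5, this]
      · simpa [r5, poly_eqn, evC, tokv] using h.e2tok (some σ)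
    · intro l
      simpa [r6, poly_eqn] using h.e3abs l
    · intro i
      fin_cases i
      · simpa [r7] using h.acc
      · simpa [r7, poly_eqn, evC] using h.init
      · simp [r7, h.e1sep, add_assoc]
      · simpa [r7] using h.e1bot
      · simpa [r7, poly_eqn] using h.e2sep
      · simpa [r7] using h.e2bot
      · simpa [r7, poly_eqn] using h.e3w
  · rintro ⟨⟨⟨⟨⟨⟨h1, h2⟩, h3⟩, h4⟩, h5⟩, h6⟩, h7⟩
    refine ⟨⟨fun l l' hl => ?_, fun γ hγ hγ' => ?_, ?_, ?_, ?_, ?_, ?_, fun l => ?_, ?_⟩,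
      fun l i => ?_, fun ρ u v hρ => ?_, ?_, ?_⟩
    · have := h1 (l, l')
      rw [r1, if_pos hl, poly_eqn] at this
      simpa [Commute, SemiconjBy] using this
    · have := h4 γ
      rw [r4, if_pos ⟨hγ, hγ'⟩, poly_eqn] at this
      simpa using this
    · have := h7 2
      simp only [r7, Matrix.cons_val, poly_cons, tv_false, ev_cons, ev_nil, mul_one, tv_true,
        poly_nil, add_zero] at this
      rw [← sub_eq_zero, ← this]
      abel
    · simpa [r7] using h7 3
    · rintro (_ | σ)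
      · have := h5 none
        simp only [r5, poly_cons, tv_false, ev_cons, ev_nil, mul_one, poly_nil, add_zero] at this
        simp only [tokv, neg_mul, one_mul, evC]
        exact eq_neg_of_add_eq_zero_left this
      · simpa [r5, poly_eqn, evC, tokv] using h5 (some σ)
    · simpa [r7, poly_eqn] using h7 4
    · simpa [r7] using h7 5
    · simpa [r6, poly_eqn] using h6 l
    · simpa [r7, poly_eqn] using h7 6
    · simpa [r2, poly_eqn, Commute, SemiconjBy] using h2 (l, i)
    · have := h3 ρ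
      simp only [r3, hρ, poly_eqn] at this
      simpa [evC] using this
    · simpa [r7] using h7 0
    · simpa [r7, poly_eqn, evC] using h7 1

end Setup

namespace Model

universe u

variable {F : Type u} {A : Type*} [DecidableEq K] [Fintype K] [Finite Γ] [Field F] [Ring A]
  [Algebra F A] (P : Model K Γ n F A)

theorem main (hF : ∀ x : F, ∃ (z : ℤ) (d : ℕ), (d : F) ≠ 0 ∧ (d : F) * x = z)
    (hgen : Algebra.adjoin F (Set.range P.a) = ⊤)
    {gR : ℕ → Terms (Fin n)} (hR : ∀ j, poly P.a (gR j) = 0)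
    (huniv : ∀ (Q : Type u) [Ring Q] [Algebra F Q] (a' : Fin n → Q), (∀ j, poly a' (gR j) = 0) →
      ∃ φ : A →ₐ[F] Q, ∀ i, φ (P.a i) = a' i)
    (hM1 : ∀ j, ∃ c r, c P.kIn = (P.str (P.relTerms P.ι gR j)).map P.inl ++ P.bot :: r ∧
      P.Dead (cat P.ι c))
    (hM2 : ∀ c, P.Dead (cat P.ι c) →
      ∃ j r, c P.kIn = (P.str (P.relTerms P.ι gR j)).map P.inl ++ P.bot :: r) :
    ∃ (m : ℕ) (R : Finset (FreeAlgebra F (Fin m))),
      IsSimpleRing (TwoSidedIdeal.span (R : Set (FreeAlgebra F (Fin m)))).ringCon.Quotient ∧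
      ∃ φ : A →ₐ[F] (TwoSidedIdeal.span (R : Set (FreeAlgebra F (Fin m)))).ringCon.Quotient,
        Injective φ := by
  classical
  obtain ⟨m, ⟨e⟩⟩ := Finite.exists_equiv_fin (Gen K Γ n)
  let g₀ : Gen K Γ n → FreeAlgebra F (Fin m) := fun σ => FreeAlgebra.ι F (e σ)
  have hfin : (poly g₀ '' P.relSet P.ι).Finite := (P.relSet_finite P.ι).image _
  refine ⟨m, hfin.toFinset, ?_⟩
  rw [Set.Finite.coe_toFinset]
  set I := TwoSidedIdeal.span (poly g₀ '' P.relSet P.ι) with hI
  let mk : FreeAlgebra F (Fin m) →ₐ[F] I.ringCon.Quotient := RingCon.mkₐ F I.ringCon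
  have hmk : ∀ x ∈ I, mk x = 0 := fun x hx => by
    rw [← TwoSidedIdeal.ker_ringCon_mk' I, TwoSidedIdeal.mem_ker] at hx
    exact hx
  let g : Gen K Γ n → I.ringCon.Quotient := mk ∘ g₀
  have hrels : P.Rels P.ι g := (P.rels_iff P.ι g).2 fun t ht => by
    rw [← map_poly g₀ mk t]
    exact hmk _ (TwoSidedIdeal.subset_span ⟨t, ht, rfl⟩)
  have hall : ∀ j, poly g (P.relTerms P.ι gR j) = 0 := fun j => by
    obtain ⟨c, r, h1, h2⟩ := hM1 j
    exact hrels.poly_eq_zero h1 h2
  obtain ⟨φ, hφ⟩ := huniv _ (g ∘ gA) fun j => by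
    have := hall (2 * j)
    rwa [Setup.relTerms, if_pos (by omega), poly_map, show 2 * j / 2 = j by omega] at this
  have hgood : P.Good g φ := ⟨hrels, fun N => by
    have := hall (2 * N + 1)
    rwa [Setup.relTerms, if_neg (by omega), show (2 * N + 1) / 2 = N by omega] at this, hφ⟩
  have hg : Algebra.adjoin F (Set.range g) = ⊤ := by
    have h1 : Set.range g = mk '' Set.range (FreeAlgebra.ι F : Fin m → _) := by
      rw [← Set.range_comp]
      exact (e.surjective.range_comp (mk ∘ FreeAlgebra.ι F))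
    rw [h1, ← AlgHom.map_adjoin, FreeAlgebra.adjoin_range_ι, Algebra.map_top, RingCon.range_mkₐ]
  -- the representation
  let ψ₀ : FreeAlgebra F (Fin m) →ₐ[F] Module.End F P.V :=
    FreeAlgebra.lift F fun i => P.L (e.symm i)
  have hψ₀ : ψ₀ ∘ g₀ = P.L := by
    funext σ
    simp [ψ₀, g₀]
  have hker : I ≤ TwoSidedIdeal.ker ψ₀ := by
    rw [hI, TwoSidedIdeal.span_le]
    rintro _ ⟨t, ht, rfl⟩
    rw [SetLike.mem_coe, TwoSidedIdeal.mem_ker, map_poly, hψ₀]
    exact (P.rels_iff P.ι P.L).1 (P.rels hR hM2) t ht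
  let ψ : I.ringCon.Quotient →ₐ[F] Module.End F P.V :=
    RingCon.liftₐ I.ringCon ψ₀ fun x y h => (TwoSidedIdeal.ringCon_le_iff.1 hker) h
  have hψ : ∀ σ, ψ (g σ) = P.L σ := fun σ => congrFun hψ₀ σ
  have hV : P.sg (one, []) ≠ 0 := by
    rw [P.sg_of_nf Setup.NF_one]
    simp
  have : Nontrivial P.V := ⟨⟨_, _, hV⟩⟩
  have : Nontrivial I.ringCon.Quotient := ψ.toRingHom.domain_nontrivial
  refine ⟨IsSimpleRing.of_eq_bot_or_eq_top fun J => ?_, φ, ?_⟩
  · by_cases hJ : J = ⊥
    · exact Or.inl hJ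
    · right
      obtain ⟨x, hx, hx0⟩ : ∃ x ∈ J, x ≠ 0 := by
        by_contra hcon
        push Not at hcon
        exact hJ (eq_bot_iff.2 fun x hx => (TwoSidedIdeal.mem_bot _).2 (hcon x hx))
      obtain ⟨v, rfl⟩ := hgood.pi_surjective hg x
      obtain ⟨u, w, h⟩ := hgood.exists_inv hF (v := v) (by rintro rfl; simp at hx0)
      rw [← TwoSidedIdeal.one_mem_iff, ← h]
      exact J.mul_mem_right _ _ (J.mul_mem_left _ _ hx)
  · have h1 : ψ.comp φ = P.LAhom :=
      AlgHom.ext_of_adjoin_eq_top hgen (by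
        rintro _ ⟨i, rfl⟩
        rw [AlgHom.comp_apply, hφ, comp_apply, hψ, P.L_gA])
    rw [injective_iff_map_eq_zero]
    intro α hα
    have h2 : P.LA α = 0 := by
      change P.LAhom α = 0
      rw [← h1, AlgHom.comp_apply, hα, map_zero]
    have h3 : P.jA nil [] α = 0 := by
      have := P.LA_sg α (c := nil) (b := []) (tl := []) Setup.NF_one
      rw [h2, ev_nil, mul_one] at this
      exact this.symm
    have h4 : Injective (P.jA nil []) := by
      refine P.bs.injective_constr_of_linearIndependent ?_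
      have h5 : (fun b : P.B => P.sg ((nil, b.1), [])) = (fun ω => Finsupp.single ω (1 : F)) ∘
          fun b : P.B => (⟨((nil, b.1), []), ⟨b.2, Setup.NFT_nil⟩⟩ : {ω // P.nf ω}) := by
        funext b
        exact P.sg_of_nf _
      rw [h5]
      refine (Finsupp.linearIndependent_single_one F _).comp _ fun b b' h => Subtype.ext ?_
      exact congrArg (fun ω : {ω // P.nf ω} => ω.1.1.2) h
    exact h4 (by rw [h3, map_zero])

end Model

end Pool.Agent.Lib.MP_4d37d6_al
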