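import Pool.Agent.Lib.MP_4d37d6_al.Act

/-!
The operators of `Act` satisfy the defining relations.
-/

set_option autoImplicit false

namespace Pool.Agent.Lib.MP_4d37d6_al

open Function

variable {K Γ : Type} {n : ℕ}

namespace Setup

variable [DecidableEq K] [Fintype K] (S : Setup K Γ n) (ι : Cfg K Γ)

/-- the word `u_N o v_N` -/
noncomputable def uv (N : ℕ) (o : Word K Γ n) : List (Gen K Γ n) :=
  flat (consX X.x (S.red N o (one, [])))

theorem flat_red (N : ℕ) (o ω : Word K Γ n) :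
    flat (consX X.x (S.red N o ω)) = S.uv N o ++ flat ω := by
  simp [uv, red, vT, flat, flatT, consX]

theorem uv_eq (N : ℕ) (o : Word K Γ n) : S.uv N o =
    gX X.x :: (flat (S.idx N, (X.w, o.1) :: (o.2 ++ [(X.y, S.idx N)])) ++ [gX X.w]) := by
  simp [uv, red, vT, flat, flatT, consX]

theorem uv_eq' (N : ℕ) (o : Word K Γ n) : S.uv N o =
    (gX X.x :: (flatM (S.idx N) ++ [gX X.w])) ++ flat o ++
      (gX X.y :: (flatM (S.idx N) ++ [gX X.w])) := by
  simp [uv, red, vT, flat, flatT, consX]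

open Classical in
/-- the `N`-th simplicity relation -/
noncomputable def simpTerms (N : ℕ) : Terms (Gen K Γ n) :=
  if S.NF ι (S.ell N) ∧ S.wt (S.ell N) < N then
    (true, []) :: (List.replicate (S.kk N) (false, S.uv N (S.ell N)) ++
      (S.os ι N).map fun p => (p.1, S.uv N p.2))
  else []

/-- the relations which the machine has to impose -/
noncomputable def relTerms (gR : ℕ → Terms (Fin n)) (j : ℕ) : Terms (Gen K Γ n) :=
  if j % 2 = 0 then (gR (j / 2)).map fun p => (p.1, p.2.map gA) else S.simpTerms ι (j / 2)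

end Setup

namespace Model

variable {F A : Type*} [DecidableEq K] [Field F] [Ring A] [Algebra F A] (P : Model K Γ n F A)

theorem kk_ne_zero (N : ℕ) : (P.kk N : F) ≠ 0 := by
  unfold Setup.kk
  split_ifs with h
  · simp
  · rw [P.ch_eq] at h
    exact fun h' => h ((ringChar.spec F _).1 h')

theorem L_gC (l : K × Γ) {c : Cfg K Γ} {b : List (Fin n)} {tl : Tail K Γ n}
    (h : P.nf ((c, b), tl)) :
    P.L (gC l) (P.sg ((c, b), tl)) = P.sg ((cat (stk l.1 [l.2]) c, b), tl) := P.L_sg _ h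

theorem commC : CommC P.L := by
  intro l l' hl
  refine P.hom_ext fun ⟨⟨c, b⟩, tl⟩ h => ?_
  rw [Module.End.mul_apply, Module.End.mul_apply, P.L_gC _ h, P.L_gC _ h, P.L_gC _ (h.change _),
    P.L_gC _ (h.change _), cat_stk_comm hl]

theorem evC_sg [Fintype K] (u : Cfg K Γ) {c : Cfg K Γ} {b : List (Fin n)} {tl : Tail K Γ n}
    (h : P.nf ((c, b), tl)) :
    evC P.L u (P.sg ((c, b), tl)) = P.sg ((cat u c, b), tl) := by
  induction u using Cfg.ind with
  | h0 => simp
  | h1 k γ u ih =>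
    rw [evC_cat P.commC, evC_single, Module.End.mul_apply, ih, P.L_gC _ (h.change _), cat_assoc]

noncomputable def LA (α : A) : Module.End F P.V :=
  P.ext fun ω => P.jA ω.1.1 ω.2 (α * ev P.a ω.1.2)

theorem LA_jA (α : A) (c : Cfg K Γ) {tl : Tail K Γ n} (h : P.NFT P.ι tl) (β : A) :
    P.LA α (P.jA c tl β) = P.jA c tl (α * β) := by
  have : P.LA α ∘ₗ P.jA c tl = P.jA c tl ∘ₗ LinearMap.mulLeft F α := by
    refine P.bs.ext fun b => ?_
    have hb : P.nf ((c, b.1), tl) := ⟨b.2, h⟩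
    rw [LinearMap.comp_apply, LinearMap.comp_apply, P.bs_eq, P.jA_ev _ _ b.2, LA, P.ext_sg _ hb]
    rfl
  exact LinearMap.congr_fun this β

theorem LA_sg (α : A) {c : Cfg K Γ} {b : List (Fin n)} {tl : Tail K Γ n}
    (h : P.nf ((c, b), tl)) : P.LA α (P.sg ((c, b), tl)) = P.jA c tl (α * ev P.a b) :=
  P.ext_sg _ h

noncomputable def LAhom : A →ₐ[F] Module.End F P.V where
  toFun := P.LA
  map_one' := P.hom_ext fun ⟨⟨c, b⟩, tl⟩ h => by
    rw [P.LA_sg _ h, one_mul, P.jA_ev _ _ h.1]; rfl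
  map_mul' α β := P.hom_ext fun ⟨⟨c, b⟩, tl⟩ h => by
    rw [Module.End.mul_apply, P.LA_sg _ h, P.LA_sg _ h, P.LA_jA _ _ h.2, mul_assoc]
  map_zero' := P.hom_ext fun ⟨⟨c, b⟩, tl⟩ h => by
    rw [P.LA_sg _ h]; simp
  map_add' α β := P.hom_ext fun ⟨⟨c, b⟩, tl⟩ h => by
    rw [LinearMap.add_apply, P.LA_sg _ h, P.LA_sg _ h, P.LA_sg _ h, add_mul, map_add]
  commutes' r := P.hom_ext fun ⟨⟨c, b⟩, tl⟩ h => by
    rw [P.LA_sg _ h, ← Algebra.smul_def, map_smul, P.jA_ev _ _ h.1]; rfl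

theorem L_gA (i : Fin n) : P.L (gA i) = P.LAhom (P.a i) :=
  P.hom_ext fun ⟨⟨c, b⟩, tl⟩ h => by
    rw [P.L_sg _ h]
    exact (P.LA_sg _ h).symm

theorem L_comp_gA : P.L ∘ gA = P.LAhom ∘ P.a := funext P.L_gA

theorem evA_eq (b : List (Fin n)) : evA P.L b = P.LAhom (ev P.a b) := by
  rw [evA, ev_map, L_comp_gA, map_ev]

theorem L_gC_jA (l : K × Γ) (c : Cfg K Γ) {tl : Tail K Γ n} (h : P.NFT P.ι tl) (β : A) :
    P.L (gC l) (P.jA c tl β) = P.jA (cat (stk l.1 [l.2]) c) tl β := by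
  have : P.L (gC l) ∘ₗ P.jA c tl = P.jA (cat (stk l.1 [l.2]) c) tl := by
    refine P.bs.ext fun b => ?_
    have hb : P.nf ((c, b.1), tl) := ⟨b.2, h⟩
    rw [LinearMap.comp_apply, P.bs_eq, P.jA_ev _ _ b.2, P.jA_ev _ _ b.2, P.L_gC _ hb]
  exact LinearMap.congr_fun this β

theorem commA (l : K × Γ) (i : Fin n) : Commute (P.L (gC l)) (P.L (gA i)) := by
  refine P.hom_ext fun ⟨⟨c, b⟩, tl⟩ h => ?_
  rw [Module.End.mul_apply, Module.End.mul_apply, P.L_gC _ h, L_gA]
  change P.L (gC l) (P.LA _ _) = P.LA _ _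
  rw [P.LA_sg _ h, P.LA_sg _ (h.change _), P.L_gC_jA _ _ h.2]

theorem L_gX_of_irr {ξ : X} {ω : Word K Γ n} (h : P.nf ω) (hi : P.irr P.ι ξ ω) :
    P.L (gX ξ) (P.sg ω) = P.sg (consX ξ ω) := by
  rw [P.L_sg _ h]
  obtain ⟨⟨c, b⟩, tl⟩ := ω
  cases ξ with
  | E =>
    obtain ⟨h1, h2, h3⟩ := hi
    simp only at h1 h2 h3
    simp only [gX, act, actE]
    rw [P.root_of_none h1, h2, if_neg h3]
  | e1 =>
    have h1 : c P.kIn = [] := hi
    have h2 : update c P.kIn [] = c := by rw [← h1, update_eq_self]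
    simp only [gX, act, act1, h1, act1aux, h2]
  | e2 =>
    obtain ⟨h1, h2, h3⟩ := hi
    simp only [gX, act]
    rw [P.G_sg h, P.step2_of_not _ fun τ => strip_eq_none.1 (h1 τ), if_neg h2, if_neg h3]
  | e3 =>
    obtain ⟨h1, h2⟩ := hi
    simp only at h1
    subst h1
    simp only [gX, act, act3, if_neg h2]
  | x => exact P.actX_of_not hi
  | y => rfl
  | w => rfl

variable [Fintype K]

theorem ev_flatM {μ : Mid K Γ n} {T : Tail K Γ n} (h : P.nf (μ, T)) :
    ev P.L (flatM μ) (P.sg (one, T)) = P.sg (μ, T) := by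
  obtain ⟨c, b⟩ := μ
  have h1 : P.nf ((nil, []), T) := ⟨P.nil_mem, h.2⟩
  rw [flatM, ev_append, Module.End.mul_apply]
  change evC P.L c (evA P.L b (P.sg ((nil, []), T))) = _
  rw [evA_eq]
  change evC P.L c (P.LA _ _) = _
  rw [P.LA_sg _ h1, ev_nil, mul_one, P.jA_ev _ _ h.1, P.evC_sg _ (h.change nil), cat_nil]

theorem ev_flatT {tl T : Tail K Γ n} (h : P.NFT P.ι (tl ++ T)) :
    ev P.L (flatT tl) (P.sg (one, T)) = P.sg (one, tl ++ T) := by
  induction tl with
  | nil => simp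
  | cons p tl ih =>
    obtain ⟨ξ, μ⟩ := p
    rw [List.cons_append, Setup.NFT_cons] at h
    rw [flatT_cons, ev_cons, flat, ev_append, Module.End.mul_apply, Module.End.mul_apply,
      ih h.1.2, P.ev_flatM h.1, P.L_gX_of_irr h.1 h.2]
    rfl

theorem ev_flat_sg {μ : Mid K Γ n} {tl T : Tail K Γ n} (h : P.nf (μ, tl ++ T)) :
    ev P.L (flat (μ, tl)) (P.sg (one, T)) = P.sg (μ, tl ++ T) := by
  rw [flat, ev_append, Module.End.mul_apply, P.ev_flatT h.2, P.ev_flatM h]

theorem ev_uv {N : ℕ} {o ω : Word K Γ n} (ho : P.nf o) (hw : P.wt o < N) (hω : P.nf ω) :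
    ev P.L (P.uv N o) (P.sg ω) = P.actX (P.red N o ω) := by
  have h1 : P.nf (P.red N o ω) := Setup.NF_red_iff.2 (Setup.NF_glue ho hw hω)
  have h2 : P.red N o ω =
      (P.idx N, ((X.w, o.1) :: (o.2 ++ [(X.y, P.idx N)])) ++ (X.w, ω.1) :: ω.2) := by
    simp [Setup.red, Setup.vT]
  rw [Setup.uv_eq, ev_cons, ev_append, Module.End.mul_apply, Module.End.mul_apply, ev_cons,
    ev_nil, mul_one, P.L_gX_of_irr (ξ := X.w) hω trivial, consX, P.ev_flat_sg (h2 ▸ h1), ← h2,
    P.L_sg _ h1]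
  rfl

theorem poly_simpTerms (N : ℕ) : poly P.L (P.simpTerms P.ι N) = 0 := by
  unfold Setup.simpTerms
  split_ifs with h
  · refine P.hom_ext fun ω hω => ?_
    have h1 : ∀ l : List (Bool × Word K Γ n), (∀ p ∈ l, p ∈ P.os P.ι N) →
        poly P.L (l.map fun p => (p.1, P.uv N p.2)) (P.sg ω) =
        (l.map fun p => bif p.1 then - P.sg (consX X.x (P.red N p.2 ω))
          else P.sg (consX X.x (P.red N p.2 ω))).sum := by
      intro l hl
      induction l with
      | nil => simp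
      | cons p l ih =>
        obtain ⟨h2, h3, h4⟩ := P.mem_os P.ι (hl p (by simp))
        have h5 : P.wt p.2 < N := by omega
        have h6 := P.ev_uv h2 h5 hω
        rw [P.actX_of_not (Setup.not_isRed_red h5 h3)] at h6
        rw [List.map_cons, poly_cons, LinearMap.add_apply, ih fun q hq => hl q (by simp [hq]),
          List.map_cons, List.sum_cons]
        obtain ⟨s, o⟩ := p
        cases s <;> simp [h6]
    rw [poly_cons, poly_append, poly_replicate, LinearMap.add_apply, LinearMap.add_apply,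
      h1 _ fun p hp => hp, tv_false, LinearMap.smul_apply, P.ev_uv h.1 h.2 hω, P.actX_red h.2,
      ← Nat.cast_smul_eq_nsmul F, smul_smul, mul_inv_cancel₀ (P.kk_ne_zero N), one_smul]
    simp [others]
  · rfl

omit [Fintype K] in
theorem act1_cat_in (G : Module.End F P.V) (γ : Γ) (c : Cfg K Γ) (b : List (Fin n))
    (tl : Tail K Γ n) :
    P.act1 G ((cat (stk P.kIn [γ]) c, b), tl) = P.act1aux G c b tl (γ :: c P.kIn) := by
  have : ∀ l, P.act1aux G (cat (stk P.kIn [γ]) c) b tl l = P.act1aux G c b tl l := by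
    intro l
    induction l with
    | nil => simp only [act1aux, update_cat_stk]
    | cons γ' l ih => simp only [act1aux, update_cat_stk, ih]
  simp only [act1, this, cat_apply, stk_same, List.singleton_append]

theorem relsE : P.RelsE P.L where
  comm := P.commC
  e1skip γ h1 h2 := P.hom_ext fun ⟨⟨c, b⟩, tl⟩ h => by
    rw [Module.End.mul_apply, P.L_gC _ h, P.L_sg _ (h.change _), P.L_sg _ h]
    simp only [gX, act, act1_cat_in, act1aux, if_neg h1, if_neg h2]
    rfl
  e1sep := P.hom_ext fun ⟨⟨c, b⟩, tl⟩ h => by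
    rw [Module.End.mul_apply, LinearMap.add_apply, P.L_gC _ h, P.L_sg _ (h.change _), P.L_sg _ h,
      P.L_sg _ h]
    simp only [gX, act, act1_cat_in, act1aux, if_neg (P.inl_ne_bot 2), if_true, update_eq_self]
    rfl
  e1bot := P.hom_ext fun ⟨⟨c, b⟩, tl⟩ h => by
    rw [Module.End.mul_apply, P.L_gC _ h, P.L_sg _ (h.change _)]
    simp only [gX, act, act1_cat_in, act1aux, if_true, LinearMap.zero_apply]
  e2tok τ := P.hom_ext fun ⟨⟨c, b⟩, tl⟩ h => by
    rw [Module.End.mul_apply, Module.End.mul_apply, P.evC_sg _ h, gX, L_e2, P.G_sg (h.change _),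
      step2_tok]
    rfl
  e2sep := P.hom_ext fun ⟨⟨c, b⟩, tl⟩ h => by
    rw [Module.End.mul_apply, P.L_gC _ h, gX, L_e2, P.G_sg (h.change _), step2_of_not,
      P.L_sg _ h]
    · simp only [cat_apply, stk_same, List.singleton_append, List.head?_cons, if_true]
      rfl
    · intro τ c' hc
      have := Setup.head_cat_tk (S := P.toSetup) τ c'
      simp only at hc
      rw [← hc] at this
      simp only [cat_apply, stk_same, List.singleton_append, List.head?_cons,
        Option.some.injEq] at this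
      exact absurd (P.inl_inj this) (by decide)
  e2bot := P.hom_ext fun ⟨⟨c, b⟩, tl⟩ h => by
    rw [Module.End.mul_apply, P.L_gC _ h, gX, L_e2, P.G_sg (h.change _), step2_of_not]
    · simp [(P.inl_ne_bot 2).symm]
    · intro τ c' hc
      have := Setup.head_cat_tk (S := P.toSetup) τ c'
      simp only at hc
      rw [← hc] at this
      simp only [cat_apply, stk_same, List.singleton_append, List.head?_cons,
        Option.some.injEq] at this
      exact P.inl_ne_bot _ this.symm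
  e3abs l := P.hom_ext fun ⟨⟨c, b⟩, tl⟩ h => by
    rw [Module.End.mul_apply, P.L_gC _ h, P.L_sg _ (h.change _), P.L_sg _ h]
    rfl
  e3w := P.hom_ext fun ω h => by
    rw [Module.End.mul_apply, P.L_gX_of_irr (ξ := X.w) h trivial,
      P.L_sg _ ((Setup.NF_consX (ξ := X.w)).2 ⟨h, trivial⟩)]
    simp [gX, act, act3, consX, one]

theorem poly_relTerms {gR : ℕ → Terms (Fin n)} (hR : ∀ j, poly P.a (gR j) = 0) (j : ℕ) :
    poly P.L (P.relTerms P.ι gR j) = 0 := by
  unfold Setup.relTerms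
  split_ifs
  · rw [poly_map, L_comp_gA, ← map_poly, hR, map_zero]
  · exact P.poly_simpTerms _

theorem rels {gR : ℕ → Terms (Fin n)} (hR : ∀ j, poly P.a (gR j) = 0)
    (hM : ∀ c, P.Dead (cat P.ι c) →
      ∃ j r, c P.kIn = (P.str (P.relTerms P.ι gR j)).map P.inl ++ P.bot :: r) :
    P.Rels P.ι P.L where
  toRelsE := P.relsE
  commA := P.commA
  rule ρ u v hρ := P.hom_ext fun ⟨⟨c, b⟩, tl⟩ h => by
    rw [Module.End.mul_apply, Module.End.mul_apply, P.evC_sg _ h, P.evC_sg _ h,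
      P.L_sg _ (h.change _), P.L_sg _ (h.change _)]
    have hs : P.Step (cat (cat (stk P.kCert [ρ]) u) c) (cat (cat (stk P.kHist [ρ]) v) c) :=
      ⟨ρ, u, v, c, hρ, rfl, rfl⟩
    simp only [gX, act, actE]
    rw [hs.root_eq]
  acc := P.hom_ext fun ⟨⟨c, b⟩, tl⟩ h => by
    rw [Module.End.mul_apply, P.L_gC _ h, P.L_sg _ (h.change _)]
    have hd : P.Dead (P.root (cat (stk P.kSt [P.acc]) c)) := ⟨_, P.reach_root _, by simp⟩
    simp only [gX, act, actE, LinearMap.zero_apply]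
    split
    · rename_i c' hc
      rw [strip_eq_some.1 hc] at hd
      obtain ⟨j, r, hj⟩ := hM c' hd
      have h1 := P.relsE.e1_load hj
      rw [P.poly_relTerms hR, zero_mul] at h1
      have h2 := LinearMap.congr_fun h1 (P.sg ((nil, b), tl))
      rw [Module.End.mul_apply, P.evC_sg _ (h.change _), cat_nil, P.L_sg _ (h.change _)] at h2
      exact h2
    · rw [if_pos hd]
  init := P.hom_ext fun ⟨⟨c, b⟩, tl⟩ h => by
    rw [Module.End.mul_apply, P.evC_sg _ h, P.L_sg _ (h.change _), P.L_sg _ h]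
    simp only [gX, act, actE, P.root_of_none (P.bwd_ι c), strip_cat]

end Model

end Pool.Agent.Lib.MP_4d37d6_al
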