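import Mathlib

/-!
Multi-stack prefix rewriting machines with a certificate stack and a history stack.
-/

set_option autoImplicit false

namespace Pool.Agent.Lib.MP_4d37d6_al

open Function

/-- contents of the stacks -/
abbrev Cfg (K Γ : Type) := K → List Γ

section Basic

variable {K Γ : Type}

def nil : Cfg K Γ := fun _ => []

def cat (u c : Cfg K Γ) : Cfg K Γ := fun k => u k ++ c k

@[simp] theorem nil_apply (k : K) : (nil : Cfg K Γ) k = [] := rfl

@[simp] theorem cat_apply (u c : Cfg K Γ) (k : K) : cat u c k = u k ++ c k := rfl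

@[simp] theorem nil_cat (c : Cfg K Γ) : cat nil c = c := by funext k; simp

@[simp] theorem cat_nil (c : Cfg K Γ) : cat c nil = c := by funext k; simp

theorem cat_assoc (a b c : Cfg K Γ) : cat (cat a b) c = cat a (cat b c) := by funext k; simp

theorem cat_left_cancel {u c c' : Cfg K Γ} (h : cat u c = cat u c') : c = c' := by
  funext k
  have := congrFun h k
  simpa using this

variable [DecidableEq K]

def stk (k : K) (l : List Γ) : Cfg K Γ := fun k' => if k' = k then l else []

@[simp] theorem stk_same (k : K) (l : List Γ) : stk k l k = l := by simp [stk]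

theorem stk_ne {k k' : K} (h : k' ≠ k) (l : List Γ) : stk k l k' = [] := by simp [stk, h]

@[simp] theorem stk_nil (k : K) : (stk k [] : Cfg K Γ) = nil := by funext k'; simp [stk]

theorem stk_append (k : K) (l l' : List Γ) : stk k (l ++ l') = cat (stk k l) (stk k l') := by
  funext k'; by_cases h : k' = k <;> simp [stk, h]

theorem stk_cons (k : K) (γ : Γ) (l : List Γ) : stk k (γ :: l) = cat (stk k [γ]) (stk k l) :=
  stk_append k [γ] l

theorem cat_stk_comm {k k' : K} (h : k ≠ k') (l l' : List Γ) (c : Cfg K Γ) :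
    cat (stk k l) (cat (stk k' l') c) = cat (stk k' l') (cat (stk k l) c) := by
  funext j
  by_cases h1 : j = k
  · subst h1; simp [stk_ne h]
  · simp [stk_ne h1]

/-- remove the first `l.length` letters of stack `k` -/
theorem eq_cat_stk {c : Cfg K Γ} {k : K} {l r : List Γ} (h : c k = l ++ r) :
    c = cat (stk k l) (update c k r) := by
  funext j
  by_cases h1 : j = k
  · subst h1; simp [h]
  · simp [stk_ne h1, h1]

theorem update_cat_stk (c : Cfg K Γ) (k : K) (l r : List Γ) :
    update (cat (stk k l) c) k r = update c k r := by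
  funext j
  by_cases h1 : j = k
  · subst h1; simp
  · simp [stk_ne h1, h1]

theorem Cfg.ind [Fintype K] {P : Cfg K Γ → Prop} (h0 : P nil)
    (h1 : ∀ k γ c, P c → P (cat (stk k [γ]) c)) (c : Cfg K Γ) : P c := by
  induction hn : ∑ k, (c k).length using Nat.strong_induction_on generalizing c with
  | _ n ih =>
    by_cases hc : c = nil
    · rw [hc]; exact h0
    · obtain ⟨k, hk⟩ : ∃ k, c k ≠ [] := by
        by_contra hcon
        push Not at hcon
        exact hc (funext hcon)
      obtain ⟨γ, r, hr⟩ := List.exists_cons_of_ne_nil hk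
      have hc' : c = cat (stk k [γ]) (update c k r) := eq_cat_stk (by simpa using hr)
      rw [hc']
      refine h1 k γ _ (ih _ ?_ _ rfl)
      rw [← hn]
      refine Finset.sum_lt_sum (fun j _ => ?_) ⟨k, Finset.mem_univ _, ?_⟩
      · by_cases hj : j = k
        · subst hj; simp [hr]
        · simp [hj]
      · simp [hr]

open Classical in
/-- remove the pattern `u` from the top of the stacks, if it is there -/
noncomputable def strip (u c : Cfg K Γ) : Option (Cfg K Γ) :=
  if cat u (fun k => (c k).drop (u k).length) = c then some (fun k => (c k).drop (u k).length)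
  else none

omit [DecidableEq K] in
theorem strip_eq_some {u c c' : Cfg K Γ} : strip u c = some c' ↔ c = cat u c' := by
  unfold strip
  constructor
  · intro h
    split_ifs at h with h1
    rw [Option.some.injEq] at h
    rw [← h, h1]
  · rintro rfl
    have : (fun k => (cat u c' k).drop (u k).length) = c' := by funext k; simp
    rw [this, if_pos rfl]

omit [DecidableEq K] in
@[simp] theorem strip_cat (u c : Cfg K Γ) : strip u (cat u c) = some c := strip_eq_some.2 rfl

omit [DecidableEq K] in
theorem strip_eq_none {u c : Cfg K Γ} : strip u c = none ↔ ∀ c', c ≠ cat u c' := by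
  rw [Option.eq_none_iff_forall_ne_some]
  simp only [ne_eq, strip_eq_some]

end Basic

/-- The machine data. -/
structure Mach (K Γ : Type) where
  kIn : K
  kCert : K
  kHist : K
  kSt : K
  inl : Fin 3 → Γ
  bot : Γ
  acc : Γ
  rule : Γ → Option (Cfg K Γ × Cfg K Γ)
  inl_inj : Injective inl
  inl_ne_bot : ∀ i, inl i ≠ bot
  in_ne_hist : kIn ≠ kHist
  cert_ne_in : kCert ≠ kIn
  cert_ne_hist : kCert ≠ kHist
  rule_hist : ∀ ρ u v, rule ρ = some (u, v) → u kHist = []
  rule_in : ∀ ρ u v, rule ρ = some (u, v) → (u kIn).length ≤ 1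
  rule_cert : ∀ ρ u v, rule ρ = some (u, v) → v kCert = []

namespace Mach

variable {K Γ : Type} [DecidableEq K] (M : Mach K Γ)

def Step (c c' : Cfg K Γ) : Prop :=
  ∃ ρ u v c₀, M.rule ρ = some (u, v) ∧ c = cat (cat (stk M.kCert [ρ]) u) c₀ ∧
    c' = cat (cat (stk M.kHist [ρ]) v) c₀

noncomputable def fwd (c : Cfg K Γ) : Option (Cfg K Γ) :=
  (c M.kCert).head?.bind fun ρ => (M.rule ρ).bind fun p =>
    (strip (cat (stk M.kCert [ρ]) p.1) c).map (cat (cat (stk M.kHist [ρ]) p.2))

noncomputable def bwd (c : Cfg K Γ) : Option (Cfg K Γ) :=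
  (c M.kHist).head?.bind fun ρ => (M.rule ρ).bind fun p =>
    (strip (cat (stk M.kHist [ρ]) p.2) c).map (cat (cat (stk M.kCert [ρ]) p.1))

theorem fwd_eq_some {c c' : Cfg K Γ} : M.fwd c = some c' ↔ M.Step c c' := by
  unfold fwd Step
  constructor
  · intro h
    simp only [Option.bind_eq_some_iff, Option.map_eq_some_iff, strip_eq_some] at h
    obtain ⟨ρ, -, ⟨u, v⟩, hp, c₀, h1, h2⟩ := h
    exact ⟨ρ, u, v, c₀, hp, h1, h2.symm⟩
  · rintro ⟨ρ, u, v, c₀, hp, rfl, rfl⟩
    simp [hp]

theorem bwd_eq_some {c c' : Cfg K Γ} : M.bwd c' = some c ↔ M.Step c c' := by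
  unfold bwd Step
  constructor
  · intro h
    simp only [Option.bind_eq_some_iff, Option.map_eq_some_iff, strip_eq_some] at h
    obtain ⟨ρ, -, ⟨u, v⟩, hp, c₀, h1, h2⟩ := h
    exact ⟨ρ, u, v, c₀, hp, h2.symm, h1⟩
  · rintro ⟨ρ, u, v, c₀, hp, rfl, rfl⟩
    simp [hp]

theorem Step.hist_lt {M : Mach K Γ} {c c' : Cfg K Γ} (h : M.Step c c') :
    (c M.kHist).length < (c' M.kHist).length := by
  obtain ⟨ρ, u, v, c₀, hp, rfl, rfl⟩ := h
  simp [M.rule_hist ρ u v hp, stk_ne M.cert_ne_hist.symm]

theorem Step.cert_lt {M : Mach K Γ} {c c' : Cfg K Γ} (h : M.Step c c') :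
    (c' M.kCert).length < (c M.kCert).length := by
  obtain ⟨ρ, u, v, c₀, hp, rfl, rfl⟩ := h
  simp [M.rule_cert ρ u v hp, stk_ne M.cert_ne_hist]

/-- the weight of a configuration -/
def wtC (c : Cfg K Γ) : ℕ := (c M.kIn).length + (c M.kHist).length

omit [DecidableEq K] in
theorem wtC_cat (u c : Cfg K Γ) : M.wtC (cat u c) = M.wtC u + M.wtC c := by
  simp [wtC]; omega

omit [DecidableEq K] in
@[simp] theorem wtC_nil : M.wtC nil = 0 := rfl

theorem wtC_stk_in (l : List Γ) : M.wtC (stk M.kIn l) = l.length := by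
  simp [wtC, stk_ne M.in_ne_hist.symm]

theorem wtC_stk_le (k : K) (l : List Γ) : M.wtC (stk k l) ≤ l.length := by
  unfold wtC
  by_cases h : k = M.kIn
  · subst h; simp [stk_ne M.in_ne_hist.symm]
  · rw [stk_ne (Ne.symm h)]
    by_cases h' : k = M.kHist
    · subst h'; simp
    · rw [stk_ne (Ne.symm h')]; simp

theorem Step.wtC_le {M : Mach K Γ} {c c' : Cfg K Γ} (h : M.Step c c') : M.wtC c ≤ M.wtC c' := by
  obtain ⟨ρ, u, v, c₀, hp, rfl, rfl⟩ := h
  have := M.rule_in ρ u v hp
  simp [wtC, M.rule_hist ρ u v hp, stk_ne M.cert_ne_hist.symm, stk_ne M.cert_ne_in.symm,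
    stk_ne M.in_ne_hist]
  omega

noncomputable def bwd' (c : Cfg K Γ) : Cfg K Γ := (M.bwd c).getD c

noncomputable def fwd' (c : Cfg K Γ) : Cfg K Γ := (M.fwd c).getD c

/-- the first configuration of the orbit of `c` -/
noncomputable def root (c : Cfg K Γ) : Cfg K Γ := M.bwd'^[(c M.kHist).length] c

theorem bwd'_iterate_of_none {c : Cfg K Γ} (h : M.bwd c = none) (n : ℕ) : M.bwd'^[n] c = c :=
  iterate_fixed (by simp [bwd', h]) n

theorem bwd_iterate_none (n : ℕ) (c : Cfg K Γ) (h : (c M.kHist).length ≤ n) :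
    M.bwd (M.bwd'^[n] c) = none := by
  induction n generalizing c with
  | zero =>
    cases hb : M.bwd c with
    | none => simpa using hb
    | some c' => have := (M.bwd_eq_some.1 hb).hist_lt; omega
  | succ n ih =>
    cases hb : M.bwd c with
    | none => rw [M.bwd'_iterate_of_none hb]; exact hb
    | some c' =>
      have := (M.bwd_eq_some.1 hb).hist_lt
      rw [iterate_succ_apply, bwd', hb, Option.getD_some]
      exact ih c' (by omega)

theorem bwd_root (c : Cfg K Γ) : M.bwd (M.root c) = none := M.bwd_iterate_none _ c le_rfl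

theorem root_of_none {c : Cfg K Γ} (h : M.bwd c = none) : M.root c = c :=
  M.bwd'_iterate_of_none h _

theorem bwd'_iterate_eq_root {n : ℕ} {c : Cfg K Γ} (h : (c M.kHist).length ≤ n) :
    M.bwd'^[n] c = M.root c := by
  obtain ⟨d, rfl⟩ := Nat.exists_eq_add_of_le' h
  rw [iterate_add_apply]
  exact M.bwd'_iterate_of_none (M.bwd_root c) d

theorem Step.root_eq {M : Mach K Γ} {c c' : Cfg K Γ} (h : M.Step c c') :
    M.root c' = M.root c := by
  have hlt := h.hist_lt
  obtain ⟨d, hd⟩ := Nat.exists_eq_add_of_lt hlt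
  rw [root, hd, iterate_succ_apply, bwd', M.bwd_eq_some.2 h, Option.getD_some]
  exact M.bwd'_iterate_eq_root (by omega)

theorem reach_bwd'_iterate (n : ℕ) (c : Cfg K Γ) :
    Relation.ReflTransGen M.Step (M.bwd'^[n] c) c := by
  induction n generalizing c with
  | zero => exact .refl
  | succ n ih =>
    rw [iterate_succ_apply]
    refine (ih _).trans ?_
    unfold bwd'
    cases hb : M.bwd c with
    | none => exact .refl
    | some c' => exact .single (M.bwd_eq_some.1 hb)

theorem reach_root (c : Cfg K Γ) : Relation.ReflTransGen M.Step (M.root c) c :=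
  M.reach_bwd'_iterate _ c

theorem wtC_le_of_reach {c c' : Cfg K Γ} (h : Relation.ReflTransGen M.Step c c') :
    M.wtC c ≤ M.wtC c' := by
  induction h with
  | refl => exact le_rfl
  | tail _ h2 ih => exact ih.trans h2.wtC_le

theorem wtC_root_le (c : Cfg K Γ) : M.wtC (M.root c) ≤ M.wtC c :=
  M.wtC_le_of_reach (M.reach_root c)

/-- an accepting configuration can be reached -/
def Dead (c : Cfg K Γ) : Prop :=
  ∃ c', Relation.ReflTransGen M.Step c c' ∧ (c' M.kSt).head? = some M.acc

theorem dead_iff (c : Cfg K Γ) :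
    M.Dead c ↔ ∃ j < (c M.kCert).length + 1, ((M.fwd'^[j] c) M.kSt).head? = some M.acc := by
  constructor
  · rintro ⟨c', h, hacc⟩
    suffices H : ∃ j, j + (c' M.kCert).length ≤ (c M.kCert).length ∧ M.fwd'^[j] c = c' by
      obtain ⟨j, hj, rfl⟩ := H
      exact ⟨j, by omega, hacc⟩
    clear hacc
    induction h with
    | refl => exact ⟨0, by simp, rfl⟩
    | tail _ h2 ih =>
      obtain ⟨j, hj, rfl⟩ := ih
      have := h2.cert_lt
      refine ⟨j + 1, by omega, ?_⟩
      rw [iterate_succ_apply', fwd', M.fwd_eq_some.2 h2, Option.getD_some]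
  · rintro ⟨j, -, hj⟩
    refine ⟨_, ?_, hj⟩
    clear hj
    induction j with
    | zero => exact .refl
    | succ j ih =>
      rw [iterate_succ_apply']
      refine ih.trans ?_
      generalize M.fwd'^[j] c = d
      unfold fwd'
      cases hb : M.fwd d with
      | none => exact .refl
      | some c' => exact .single (M.fwd_eq_some.1 hb)

end Mach

end Pool.Agent.Lib.MP_4d37d6_al
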