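import Pool.Agent.Lib.MP_4d37d6_al.Core

/-!
The embedding theorem for unital algebras with a recursive basis.
-/

set_option autoImplicit false

namespace Pool.Agent.Lib.MP_4d37d6_al

open Function

theorem encode_ofNat (k : ℕ) : Encodable.encode (Int.ofNat k) = 2 * k := rfl

theorem encode_negSucc (k : ℕ) : Encodable.encode (Int.negSucc k) = 2 * k + 1 := rfl

theorem pr_natAbs : Primrec Int.natAbs :=
  (Primrec.nat_div.comp (Primrec.succ.comp Primrec.encode) (Primrec.const 2)).of_eq fun z => by
    cases z with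
    | ofNat k => rw [encode_ofNat]; simp; omega
    | negSucc k => rw [encode_negSucc]; simp; omega

theorem pr_neg : PrimrecPred fun z : ℤ => z < 0 :=
  (Primrec.eq.comp (Primrec.nat_mod.comp Primrec.encode (Primrec.const 2))
    (Primrec.const 1)).of_eq fun z => by
    cases z with
    | ofNat k => rw [encode_ofNat]; simp
    | negSucc k => rw [encode_negSucc]; simp [Int.negSucc_lt_zero]

theorem pr_prod : Primrec (List.prod : List ℕ → ℕ) :=
  (Primrec.list_foldr Primrec.id (Primrec.const 1)
    (Primrec.nat_mul.comp (Primrec.fst.comp Primrec.snd) (Primrec.snd.comp Primrec.snd)).to₂).of_eq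
    fun l => by
      change l.foldr (fun b s => b * s) 1 = l.prod
      induction l <;> simp [*]

theorem exists_frac {F : Type*} [Field F] (h : ∀ K : Subfield F, K = ⊤) (x : F) :
    ∃ (z : ℤ) (d : ℕ), (d : F) ≠ 0 ∧ (d : F) * x = z := by
  have hx : x ∈ Subfield.closure (∅ : Set F) := by rw [h (Subfield.closure ∅)]; trivial
  obtain ⟨y, hy, w, hw, rfl⟩ := Subfield.mem_closure_iff.1 hx
  rw [Subring.closure_empty, Subring.mem_bot] at hy hw
  obtain ⟨p, rfl⟩ := hy
  obtain ⟨q, rfl⟩ := hw
  by_cases hq : (q : F) = 0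
  · exact ⟨0, 1, by simp, by simp [hq]⟩
  · rcases Int.natAbs_eq q with h1 | h1
    · refine ⟨p, q.natAbs, ?_, ?_⟩ <;> rw [← Int.cast_natCast, ← h1]
      · exact hq
      · field_simp
    · have h2 : ((q.natAbs : ℤ) : F) = - (q : F) := by
        conv_rhs => rw [h1]
        simp
      refine ⟨-p, q.natAbs, ?_, ?_⟩ <;> rw [← Int.cast_natCast, h2]
      · simpa using hq
      · push_cast; field_simp

variable {n : ℕ}

abbrev Comb (n : ℕ) := List ((ℤ × ℕ) × List (Fin n))

def denP (ch : ℕ) (L : Comb n) : ℕ := (L.map fun t => if ch ∣ t.1.2 then 1 else t.1.2).prod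

/-- the relation `w = L` with the denominators cleared -/
def relOf (ch : ℕ) (w : List (Fin n)) (L : Comb n) : Terms (Fin n) :=
  List.replicate (denP ch L) (true, w) ++ L.flatMap fun t =>
    List.replicate (if ch ∣ t.1.2 then 0 else t.1.1.natAbs * (denP ch L / t.1.2))
      (decide (t.1.1 < 0), t.2)

theorem pr_relOf (ch : ℕ) : Primrec₂ (relOf (n := n) ch) := by
  have hdvd : ∀ {α : Type} [Primcodable α] {f : α → ℕ}, Primrec f → PrimrecPred fun a => ch ∣ f a :=
    fun hf => (Primrec.eq.comp (Primrec.nat_mod.comp hf (Primrec.const ch))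
      (Primrec.const 0)).of_eq fun N => (Nat.dvd_iff_mod_eq_zero ..).symm
  have h1 : Primrec (denP (n := n) ch) :=
    pr_prod.comp (Primrec.list_map Primrec.id (Primrec.ite
      (hdvd (Primrec.snd.comp (Primrec.fst.comp Primrec.snd))) (Primrec.const 1)
      (Primrec.snd.comp (Primrec.fst.comp Primrec.snd))).to₂)
  have hz : Primrec fun q : (List (Fin n) × Comb n) × ((ℤ × ℕ) × List (Fin n)) => q.2.1.1 :=
    Primrec.fst.comp (Primrec.fst.comp Primrec.snd)
  have hd : Primrec fun q : (List (Fin n) × Comb n) × ((ℤ × ℕ) × List (Fin n)) => q.2.1.2 :=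
    Primrec.snd.comp (Primrec.fst.comp Primrec.snd)
  exact Primrec.list_append.comp
    (pr_replicate (h1.comp Primrec.snd) ((Primrec.const true).pair Primrec.fst))
    (Primrec.list_flatMap Primrec.snd (pr_replicate
      (Primrec.ite (hdvd hd) (Primrec.const 0) (Primrec.nat_mul.comp (pr_natAbs.comp hz)
        (Primrec.nat_div.comp (h1.comp (Primrec.snd.comp Primrec.fst)) hd)))
      ((pr_neg.comp hz).decide.pair (Primrec.snd.comp Primrec.snd))).to₂)

section

variable {F : Type*} [Field F] {Q : Type*} [Ring Q] [Algebra F Q]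

def combVal (F : Type*) [Field F] {Q : Type*} [Ring Q] [Algebra F Q] (a : Fin n → Q)
    (L : Comb n) : Q := (L.map fun t => ((t.1.1 : F) / (t.1.2 : F)) • ev a t.2).sum

theorem denP_ne_zero (L : Comb n) : (denP (ringChar F) L : F) ≠ 0 := by
  unfold denP
  induction L with
  | nil => simp
  | cons t L ih =>
    rw [List.map_cons, List.prod_cons, Nat.cast_mul]
    refine mul_ne_zero ?_ ih
    split_ifs with h
    · simp
    · exact fun h' => h ((ringChar.spec F _).1 h')

theorem poly_relOf (a : Fin n → Q) (w : List (Fin n)) (L : Comb n) :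
    poly a (relOf (ringChar F) w L) = (denP (ringChar F) L : F) • (combVal F a L - ev a w) := by
  have key : ∀ L' : Comb n, (∀ t ∈ L', t ∈ L) → poly a (L'.flatMap fun t =>
      List.replicate (if ringChar F ∣ t.1.2 then 0
        else t.1.1.natAbs * (denP (ringChar F) L / t.1.2)) (decide (t.1.1 < 0), t.2)) =
      (denP (ringChar F) L : F) • combVal F a L' := by
    intro L' hL'
    induction L' with
    | nil => simp [combVal]
    | cons t L' ih =>
      rw [List.flatMap_cons, poly_append, ih fun q hq => hL' q (by simp [hq]), poly_replicate,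
        combVal, combVal, List.map_cons, List.sum_cons, smul_add]
      congr 1
      split_ifs with h
      · simp [(ringChar.spec F _).2 h]
      · have h0 : (t.1.2 : F) ≠ 0 := fun h' => h ((ringChar.spec F _).1 h')
        have hdvd : t.1.2 ∣ denP (ringChar F) L := by
          refine List.dvd_prod (List.mem_map.2 ⟨t, hL' t (by simp), ?_⟩)
          rw [if_neg h]
        have htv : (t.1.1.natAbs : F) • tv a (decide (t.1.1 < 0), t.2) = (t.1.1 : F) • ev a t.2 := by
          have := sum_replicate_sign (ev a) t.1.1 t.2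
          rw [List.map_replicate, List.sum_replicate] at this
          rw [Nat.cast_smul_eq_nsmul, Int.cast_smul_eq_zsmul]
          exact this
        rw [← Nat.cast_smul_eq_nsmul F, Nat.cast_mul, mul_comm, mul_smul, htv, Nat.cast_div hdvd h0,
          smul_smul, smul_smul]
        congr 1
        field_simp
  rw [relOf, poly_append, key L fun t ht => ht, poly_replicate, tv_true, smul_sub,
    ← Nat.cast_smul_eq_nsmul F, smul_neg]
  abel

theorem poly_relOf_eq_zero (a : Fin n → Q) (w : List (Fin n)) (L : Comb n) :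
    poly a (relOf (ringChar F) w L) = 0 ↔ ev a w = combVal F a L := by
  rw [poly_relOf, smul_eq_zero, or_iff_right (denP_ne_zero L), sub_eq_zero, eq_comm]

end

universe u

theorem unital_main {F : Type u} [Field F] (hF : ∀ K : Subfield F, K = ⊤) {A : Type*} [Ring A]
    [Algebra F A] [Nontrivial A] (a : Fin n → A) (B : Set (List (Fin n)))
    (hB : ComputablePred fun b => b ∈ B) (hli : LinearIndepOn F (ev a) B)
    (hsp : Submodule.span F (ev a '' B) = ⊤) (f : List (Fin n) → Comb n) (hf : Computable f)
    (hfB : ∀ w, ∀ t ∈ f w, t.2 ∈ B) (hfv : ∀ w, ev a w = combVal F a (f w)) :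
    ∃ (m : ℕ) (R : Finset (FreeAlgebra F (Fin m))),
      IsSimpleRing (TwoSidedIdeal.span (R : Set (FreeAlgebra F (Fin m)))).ringCon.Quotient ∧
      ∃ φ : A →ₐ[F] (TwoSidedIdeal.span (R : Set (FreeAlgebra F (Fin m)))).ringCon.Quotient,
        Injective φ := by
  classical
  have hrange : ∀ C : Set (List (Fin n)), Set.range (fun b : C => ev a b.1) = ev a '' C :=
    fun C => (Set.image_eq_range _ _).symm
  let bs : Module.Basis B F A := Module.Basis.mk hli (by
    rw [← hsp]; exact (congrArg (Submodule.span F) (hrange B)).ge)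
  have hbs : ∀ b, bs b = ev a b.1 := fun b => Module.Basis.mk_apply _ _ b
  -- a basis containing the empty word
  obtain ⟨B', hB', hnil, hli', hsp'⟩ : ∃ B' : Set (List (Fin n)),
      (ComputablePred fun b => b ∈ B') ∧ [] ∈ B' ∧ LinearIndepOn F (ev a) B' ∧
        Submodule.span F (ev a '' B') = ⊤ := by
    by_cases h : [] ∈ B
    · exact ⟨B, hB, h, hli, hsp⟩
    · obtain ⟨b₀, hb₀⟩ : ∃ b₀, bs.repr 1 b₀ ≠ 0 := by
        by_contra hcon
        push Not at hcon
        exact one_ne_zero (bs.repr.map_eq_zero_iff.1 (Finsupp.ext hcon))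
      have himg : ev a '' (B \ {b₀.1}) = bs '' {b | b ≠ b₀} := by
        ext x
        constructor
        · rintro ⟨b, ⟨h1, h2⟩, rfl⟩
          exact ⟨⟨b, h1⟩, fun e => h2 (congrArg Subtype.val e), hbs _⟩
        · rintro ⟨b, h1, rfl⟩
          exact ⟨b.1, ⟨b.2, fun e => h1 (Subtype.ext e)⟩, (hbs _).symm⟩
      refine ⟨insert [] (B \ {b₀.1}), ?_, Set.mem_insert _ _, ?_, ?_⟩
      · refine (cp_and (Primrec.eq.comp Primrec.id (Primrec.const [])).not.computablePred
          (cp_and hB (Primrec.eq.comp Primrec.id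
            (Primrec.const b₀.1)).not.computablePred).not).not.of_eq fun b => ?_
        simp only [id, Set.mem_insert_iff, Set.mem_sdiff, Set.mem_singleton_iff]
        tauto
      · rw [linearIndepOn_insert fun h' => h h'.1]
        refine ⟨hli.mono Set.sdiff_subset, ?_⟩
        rw [himg, bs.mem_span_image, ev_nil]
        exact fun h' => h' (Finsupp.mem_support_iff.2 hb₀) rfl
      · rw [Set.image_insert_eq, himg, ev_nil, eq_top_iff, ← bs.span_eq, Submodule.span_le]
        rintro _ ⟨b, rfl⟩
        by_cases hb : b = b₀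
        · subst hb
          have h1 : (1 : A) - bs.repr 1 b • bs b ∈ Submodule.span F (bs '' {b' | b' ≠ b}) := by
            rw [bs.mem_span_image]
            intro b' hb' e
            subst e
            simp at hb'
          have h2 : bs b = (bs.repr 1 b)⁻¹ • ((1 : A) - ((1 : A) - bs.repr 1 b • bs b)) := by
            rw [sub_sub_cancel, smul_smul, inv_mul_cancel₀ hb₀, one_smul]
          rw [SetLike.mem_coe, h2]
          exact Submodule.smul_mem _ _ (sub_mem (Submodule.subset_span (Set.mem_insert _ _))
            (Submodule.span_mono (Set.subset_insert _ _) h1))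
        · exact Submodule.subset_span (Set.mem_insert_of_mem _ ⟨b, hb, rfl⟩)
  let bs' : Module.Basis B' F A := Module.Basis.mk hli' (by
    rw [← hsp']; exact (congrArg (Submodule.span F) (hrange B')).ge)
  have hbs' : ∀ b, bs' b = ev a b.1 := fun b => Module.Basis.mk_apply _ _ b
  let enc₀ : Primcodable (List (Fin n)) := inferInstance
  let wd : ℕ → List (Fin n) := fun j => (enc₀.decode j).getD []
  have hwd : Primrec wd := Primrec.option_getD.comp Primrec.decode (Primrec.const _)
  refine core a (exists_frac hF) ?_ B' hB' hnil bs' hbs'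
    (fun j => relOf (ringChar F) (wd j) (f (wd j)))
    ((pr_relOf _).to_comp.comp hwd.to_comp (hf.comp hwd.to_comp))
    (fun j => (poly_relOf_eq_zero _ _ _).2 (hfv _)) fun Q _ _ a' ha' => ?_
  · rw [eq_top_iff]
    have : ⊤ ≤ Subalgebra.toSubmodule (Algebra.adjoin F (Set.range a)) := by
      rw [← hsp, Submodule.span_le]
      rintro _ ⟨w, -, rfl⟩
      refine Subalgebra.list_prod_mem _ fun x hx => ?_
      obtain ⟨i, -, rfl⟩ := List.mem_map.1 hx
      exact Algebra.subset_adjoin ⟨i, rfl⟩
    exact fun x _ => this Submodule.mem_top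
  · have h1 : ∀ w, ev a' w = combVal F a' (f w) := fun w => by
      have := (poly_relOf_eq_zero _ _ _).1 (ha' (enc₀.encode w))
      simpa [wd, Encodable.encodek] using this
    let φ : A →ₗ[F] Q := bs.constr F fun b => ev a' b.1
    have h2 : ∀ b ∈ B, φ (ev a b) = ev a' b := fun b hb => by
      rw [← hbs ⟨b, hb⟩, Module.Basis.constr_basis]
    have h3 : ∀ w, φ (ev a w) = ev a' w := fun w => by
      rw [hfv, h1, combVal, combVal, map_list_sum, List.map_map]
      congr 1
      refine List.map_congr_left fun t ht => ?_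
      simp [h2 _ (hfB w t ht)]
    have h4 : (LinearMap.mul F A).compr₂ φ = (LinearMap.mul F Q).compl₁₂ φ φ :=
      bs.ext fun b => bs.ext fun b' => by
        simp only [LinearMap.compr₂_apply, LinearMap.mul_apply', LinearMap.compl₁₂_apply, hbs]
        rw [← ev_append, h3, h3, h3, ev_append]
    refine ⟨AlgHom.ofLinearMap φ (by simpa using h3 []) fun x y => ?_, fun i => ?_⟩
    · exact LinearMap.congr_fun₂ h4 x y
    · simpa using h3 [i]

end Pool.Agent.Lib.MP_4d37d6_al
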